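import Pool.Agent.H8.UW.Defs
import Pool.Agent.H52.UL.Asym

/-!
# Project UW (MP_a3214d), row UW-13: the choice of the parameters for large `n`
-/

set_option autoImplicit false

open NumberField Module Polynomial Pool.Agent.H52.UB Pool.Agent.H48.UD
open Pool.Agent.H52.UL (tay phi wd hl)

namespace Pool.Agent.H8.UW

theorem asym (c : ℝ) (hc : 3 / (2 * Real.log 3) < c) : ∃ n0 : ℕ, ∀ n : ℕ, n0 ≤ n →
    ∃ s r0 r1 : ℕ, 1 ≤ s ∧ s ≤ n ∧ 1 ≤ r0 ∧ (n : ℝ) / s * Real.log n + 1 ≤ 2 ^ r0 ∧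
      s ≤ 3 ^ r1 ∧ (4 * (r0 : ℝ) + 3 * r1) / 2 * (n / (n - s + 1)) < c * Real.log n := by
  have hl2 : 0 < Real.log 2 := Real.log_pos (by norm_num)
  have hl3 : 0 < Real.log 3 := Real.log_pos (by norm_num)
  have hc0 : 0 < c := lt_trans (by positivity) hc
  set ε : ℝ := (c - 3 / (2 * Real.log 3)) / 4 with hε
  have hε0 : 0 < ε := by rw [hε]; linarith
  obtain ⟨n0, hn0⟩ := Pool.Agent.H52.UL.ul16_ev (Real.log 2 * ε) c
    (3 / (2 * Real.log 3) + 2 * ε) (by positivity) (by rw [hε]; linarith)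
  refine ⟨max n0 1, fun n hn => ?_⟩
  obtain ⟨hL1, hL2, hL3⟩ := hn0 n (le_trans (le_max_left _ _) hn)
  have hn1 : 1 ≤ n := le_trans (le_max_right _ _) hn
  have hnpos : (0 : ℝ) < n := by exact_mod_cast hn1
  set L : ℝ := Real.log n with hL
  have hL0 : 0 < L := by linarith
  have hexp : Real.exp L = n := by rw [hL]; exact Real.exp_log hnpos
  have hs1 : (n : ℝ) / L ≤ (⌈(n : ℝ) / L⌉₊ : ℝ) := Nat.le_ceil _
  have hs2 : (⌈(n : ℝ) / L⌉₊ : ℝ) < (n : ℝ) / L + 1 := Nat.ceil_lt_add_one (by positivity)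
  have hs0 : 0 < ⌈(n : ℝ) / L⌉₊ := Nat.ceil_pos.2 (by positivity)
  set s : ℕ := ⌈(n : ℝ) / L⌉₊ with hs
  have hspos : (0 : ℝ) < s := by exact_mod_cast hs0
  have hr0 : ε * L ≤ (⌈ε * L⌉₊ : ℝ) := Nat.le_ceil _
  have hr0' : (⌈ε * L⌉₊ : ℝ) < ε * L + 1 := Nat.ceil_lt_add_one (by positivity)
  have hr1 : L / Real.log 3 ≤ (⌈L / Real.log 3⌉₊ : ℝ) := Nat.le_ceil _
  have hr1' : (⌈L / Real.log 3⌉₊ : ℝ) < L / Real.log 3 + 1 :=
    Nat.ceil_lt_add_one (by positivity)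
  have hsn : s ≤ n := by
    rw [hs]
    apply Nat.ceil_le.2
    rw [div_le_iff₀ hL0]
    nlinarith
  refine ⟨s, ⌈ε * L⌉₊, ⌈L / Real.log 3⌉₊, hs0, hsn, Nat.ceil_pos.2 (by positivity), ?_, ?_, ?_⟩
  · have h1 : (n : ℝ) / s ≤ L := by
      rw [div_le_iff₀ hspos]
      rw [div_le_iff₀ hL0] at hs1
      linarith
    have h2 : (n : ℝ) / s * L + 1 ≤ L ^ 2 + 1 := by
      have := mul_le_mul_of_nonneg_right h1 hL0.le
      nlinarith
    refine h2.trans (hL2.trans ?_)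
    have h3 : ((2 : ℝ) ^ ⌈ε * L⌉₊) = Real.exp (Real.log 2 * (⌈ε * L⌉₊ : ℝ)) := by
      rw [← Real.rpow_natCast, Real.rpow_def_of_pos (by norm_num)]
    rw [h3]
    apply Real.exp_le_exp.2
    rw [mul_assoc]
    exact mul_le_mul_of_nonneg_left hr0 hl2.le
  · have h3 : ((3 : ℝ) ^ ⌈L / Real.log 3⌉₊) =
        Real.exp (Real.log 3 * (⌈L / Real.log 3⌉₊ : ℝ)) := by
      rw [← Real.rpow_natCast, Real.rpow_def_of_pos (by norm_num)]
    have h4 : (n : ℝ) ≤ (3 : ℝ) ^ ⌈L / Real.log 3⌉₊ := by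
      rw [h3, ← hexp]
      apply Real.exp_le_exp.2
      rw [div_le_iff₀ hl3] at hr1
      linarith
    have h5 : (s : ℝ) ≤ (3 : ℝ) ^ ⌈L / Real.log 3⌉₊ :=
      le_trans (by exact_mod_cast hsn) h4
    exact_mod_cast h5
  · have hden : (n : ℝ) * (L - 1) / L ≤ (n : ℝ) - s + 1 := by
      have h1 : (n : ℝ) * (L - 1) / L = n - n / L := by
        field_simp
      rw [h1]
      linarith
    have hdpos : 0 < (n : ℝ) * (L - 1) / L := by
      have : 0 < L - 1 := by linarith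
      positivity
    have h2 : (n : ℝ) / ((n : ℝ) - s + 1) ≤ L / (L - 1) := by
      have h3 : (n : ℝ) / ((n : ℝ) - s + 1) ≤ n / ((n : ℝ) * (L - 1) / L) :=
        div_le_div_of_nonneg_left hnpos.le hdpos hden
      have h4 : (n : ℝ) / ((n : ℝ) * (L - 1) / L) = L / (L - 1) := by
        have : L - 1 ≠ 0 := by linarith
        field_simp
      rwa [h4] at h3
    have h5 : (4 * (⌈ε * L⌉₊ : ℝ) + 3 * (⌈L / Real.log 3⌉₊ : ℝ)) / 2 ≤
        (3 / (2 * Real.log 3) + 2 * ε) * L + 4 := by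
      have h6 : 3 / (2 * Real.log 3) * L = 3 / 2 * (L / Real.log 3) := by
        field_simp
      rw [add_mul, h6]
      linarith
    have h7 : 0 ≤ (4 * (⌈ε * L⌉₊ : ℝ) + 3 * (⌈L / Real.log 3⌉₊ : ℝ)) / 2 := by positivity
    have h8 : 0 ≤ L / (L - 1) := div_nonneg hL0.le (by linarith)
    calc (4 * (⌈ε * L⌉₊ : ℝ) + 3 * (⌈L / Real.log 3⌉₊ : ℝ)) / 2 * ((n : ℝ) / ((n : ℝ) - s + 1))
        ≤ (4 * (⌈ε * L⌉₊ : ℝ) + 3 * (⌈L / Real.log 3⌉₊ : ℝ)) / 2 * (L / (L - 1)) :=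
          mul_le_mul_of_nonneg_left h2 h7
      _ ≤ ((3 / (2 * Real.log 3) + 2 * ε) * L + 4) * (L / (L - 1)) :=
          mul_le_mul_of_nonneg_right h5 h8
      _ < c * L := by
          rw [← mul_div_assoc, div_lt_iff₀ (by linarith)]
          nlinarith

end Pool.Agent.H8.UW
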