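import Pool.Agent.H8.UW.Tay
import Pool.Agent.H52.UL.IntPoly

/-!
# Project UW (MP_a3214d), row UW-6: the bad number of a point
-/

set_option autoImplicit false

open NumberField Module Polynomial Pool.Agent.H52.UB Pool.Agent.H48.UD
open Pool.Agent.H52.UL (ul8_gen ul8_norm)

namespace Pool.Agent.H8.UW

/-- the generic bad number -/
noncomputable def uw6_bad {n q : ℕ} (m κ : Fin (q + 1) → ℕ) (Γ : Fin n → Fin (q + 1) → ℕ) (S : ℕ) :
    MvPolynomial (Fin n × Fin (q + 1)) ℤ :=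
  dsc (ul8_gen n (q + 1)) * ∏ s ∈ Finset.range (S + 1), jw m κ Γ s (ul8_gen n (q + 1)) ^ 2

theorem uw6_bad_aeval {A : Type*} [CommRing A] {n q : ℕ} (m κ : Fin (q + 1) → ℕ)
    (Γ : Fin n → Fin (q + 1) → ℕ) (S : ℕ) (x : Fin n → Fin (q + 1) → A) :
    MvPolynomial.aeval (fun ρ : Fin n × Fin (q + 1) => x ρ.1 ρ.2) (uw6_bad m κ Γ S) =
      dsc x * ∏ s ∈ Finset.range (S + 1), jw m κ Γ s x ^ 2 := by
  set f : MvPolynomial (Fin n × Fin (q + 1)) ℤ →+* A :=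
    (MvPolynomial.aeval (R := ℤ) (fun ρ : Fin n × Fin (q + 1) => x ρ.1 ρ.2)).toRingHom with hf
  have h0 : (fun (j : Fin n) (i : Fin (q + 1)) => f (ul8_gen n (q + 1) j i)) = x := by
    funext j i
    simp [hf, ul8_gen]
  have h1 : f (dsc (ul8_gen n (q + 1))) = dsc x := by
    rw [ud5_map_dsc, h0]
  have h2 : ∀ s, f (jw m κ Γ s (ul8_gen n (q + 1))) = jw m κ Γ s x := by
    intro s
    rw [map_jw, h0]
  change f (uw6_bad m κ Γ S) = _
  unfold uw6_bad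
  rw [map_mul, h1, map_prod]
  congr 1
  refine Finset.prod_congr rfl fun s _ => ?_
  rw [map_pow, h2]

theorem uw6_map {A B : Type*} [CommRing A] [CommRing B] (f : A →+* B) {n q : ℕ}
    (m κ : Fin (q + 1) → ℕ) (Γ : Fin n → Fin (q + 1) → ℕ) (S : ℕ) (x : Fin n → Fin (q + 1) → A) :
    f (dsc x * ∏ s ∈ Finset.range (S + 1), jw m κ Γ s x ^ 2) =
      dsc (fun j i => f (x j i)) *
        ∏ s ∈ Finset.range (S + 1), jw m κ Γ s (fun j i => f (x j i)) ^ 2 := by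
  rw [map_mul, ud5_map_dsc, map_prod]
  congr 1
  refine Finset.prod_congr rfl fun s _ => ?_
  rw [map_pow, map_jw]

theorem uw6_perm {A : Type*} [CommRing A] {n q : ℕ} (m κ : Fin (q + 1) → ℕ)
    (Γ : Fin n → Fin (q + 1) → ℕ) (S : ℕ) (x : Fin n → Fin (q + 1) → A)
    (π : Equiv.Perm (Fin n)) :
    dsc (fun j => x (π j)) * ∏ s ∈ Finset.range (S + 1), jw m κ Γ s (fun j => x (π j)) ^ 2 =
      dsc x * ∏ s ∈ Finset.range (S + 1), jw m κ Γ s x ^ 2 := by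
  rw [ud5_dsc_perm]
  congr 1
  refine Finset.prod_congr rfl fun s _ => ?_
  rcases jw_perm m κ Γ s x π with h | h
  · rw [h]
  · rw [h, neg_sq]

/-- the bad number of a point -/
theorem bad_specw (k : Type) [Field k] [NumberField k] {n q : ℕ} (m κ : Fin (q + 1) → ℕ)
    (Γ : Fin n → Fin (q + 1) → ℕ) (S W : ℕ) : ∃ w' : ℝ, ∀ H : ℝ, 2 ≤ H →
    ∀ x : Fin n → Fin (q + 1) → Zb k, IsPt k x → Sz k (H ^ W) x →
      (∀ s ≤ S, jw m κ Γ s x ≠ 0) →
      dsc x * ∏ s ∈ Finset.range (S + 1), jw m κ Γ s x ^ 2 ≠ 0 ∧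
      (minpoly ℤ (dsc x * ∏ s ∈ Finset.range (S + 1), jw m κ Γ s x ^ 2)).natDegree ≤ finrank ℚ k ∧
      ∀ φ : AlgebraicClosure k →+* ℂ,
        ‖φ ((dsc x * ∏ s ∈ Finset.range (S + 1), jw m κ Γ s x ^ 2 : Zb k) :
          AlgebraicClosure k)‖ ≤ H ^ w' := by
  set c0 : ℝ := ∑ b ∈ (uw6_bad m κ Γ S).support,
    |((MvPolynomial.coeff b (uw6_bad m κ Γ S) : ℤ) : ℝ)|
    with hc0
  set D : ℕ := (uw6_bad m κ Γ S).totalDegree with hD
  obtain ⟨N, hN⟩ : ∃ N : ℕ, c0 ≤ 2 ^ N := by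
    obtain ⟨N, hN⟩ := pow_unbounded_of_one_lt c0 (by norm_num : (1 : ℝ) < 2)
    exact ⟨N, hN.le⟩
  refine ⟨((N + W * D : ℕ) : ℝ), ?_⟩
  intro H hH x hx hsz hjd
  have hH0 : (0 : ℝ) ≤ H := by linarith
  have hH1 : (1 : ℝ) ≤ H := by linarith
  refine ⟨?_, ?_, ?_⟩
  · refine mul_ne_zero ?_ (Finset.prod_ne_zero_iff.2 fun s hs => pow_ne_zero _ (hjd s ?_))
    · unfold dsc
      refine Finset.prod_ne_zero_iff.2 fun j _ => Finset.prod_ne_zero_iff.2 fun l hl => ?_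
      rw [sub_ne_zero]
      intro h
      exact (Finset.ne_of_mem_erase hl) (hx.sep h.symm)
    · exact Nat.lt_succ_iff.1 (Finset.mem_range.1 hs)
  · have h1 : ∃ c : 𝓞 k, algebraMap k (AlgebraicClosure k) (c : k) =
        ((dsc x * ∏ s ∈ Finset.range (S + 1), jw m κ Γ s x ^ 2 : Zb k) : AlgebraicClosure k) := by
      refine fixed_int k _ fun σ => ?_
      obtain ⟨π, hπ⟩ := ud5_sym k hx σ
      set F := (σ : AlgebraicClosure k →+* AlgebraicClosure k).comp (algebraMap (Zb k)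
        (AlgebraicClosure k)) with hF
      have h2 : F (dsc x * ∏ s ∈ Finset.range (S + 1), jw m κ Γ s x ^ 2) =
          algebraMap (Zb k) (AlgebraicClosure k)
            (dsc x * ∏ s ∈ Finset.range (S + 1), jw m κ Γ s x ^ 2) := by
        rw [uw6_map F, hπ, uw6_map (algebraMap (Zb k) (AlgebraicClosure k))]
        exact uw6_perm m κ Γ S (fun (j : Fin n) (i : Fin (q + 1)) =>
          algebraMap (Zb k) (AlgebraicClosure k) (x j i)) π
      exact h2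
    obtain ⟨c, hc⟩ := h1
    exact ud5_natDegree k hc
  · intro φ
    set F := φ.comp (algebraMap (Zb k) (AlgebraicClosure k)) with hF
    have h1 : φ ((dsc x * ∏ s ∈ Finset.range (S + 1), jw m κ Γ s x ^ 2 : Zb k) :
        AlgebraicClosure k) =
        MvPolynomial.aeval (fun ρ : Fin n × Fin (q + 1) => F (x ρ.1 ρ.2)) (uw6_bad m κ Γ S) := by
      rw [uw6_bad_aeval m κ Γ S (fun j i => F (x j i)), ← uw6_map F]
      rfl
    have h2 := ul8_norm (uw6_bad m κ Γ S) (fun ρ : Fin n × Fin (q + 1) => F (x ρ.1 ρ.2)) (H ^ W)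
      (one_le_pow₀ hH1) (fun ρ => hsz φ ρ.1 ρ.2)
    rw [h1, Real.rpow_natCast, pow_add, pow_mul]
    refine h2.trans (mul_le_mul ?_ le_rfl (by positivity) (by positivity))
    exact hN.trans (pow_le_pow_left₀ (by norm_num) hH N)

end Pool.Agent.H8.UW
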