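import Pool.Agent.H8.UW.Interp
import Pool.Agent.H52.UL.LocDet

/-!
# Project UW (MP_a3214d), row UW-4: divisibility of the determinant at one prime
-/

set_option autoImplicit false

open NumberField Module Polynomial Pool.Agent.H52.UB Pool.Agent.H48.UD Pool.Agent.H52.UL

namespace Pool.Agent.H8.UW

theorem loc_det {A : Type*} [CommRing A] [IsDomain A] {F : Type*} [Field F] (ψ : A →+* F)
    (hψ : Function.Injective ψ) (P : Ideal A) [P.IsPrime] (p : A) (hp : p ≠ 0) {n r : ℕ}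
    (w κ m : Fin r → ℕ) (hw : ∀ i, 1 ≤ w i) (hm1 : ∀ i, 1 ≤ m i) (hm : ∀ i, w i * κ i ≤ m i)
    (Γ : Fin n → Fin r → ℕ) (hΓ : ∀ j i, Γ j i < κ i) (x0 : Fin n → Fin r → A) (T : ℕ)
    (hD : ∀ s ≤ T, jw m κ Γ s x0 ∉ P) {h : ℕ} (b : Fin h → Fin r → ℕ) (y : Fin h → Fin r → A)
    (hy : ∀ l, ∃ j, ∃ u : A, u ∉ P ∧ ∀ i, p ^ m i ∣ u * (y l i - x0 j i)) (Y : Set (Fin r → F))
    (hY : ∀ l, (fun i => ψ (y l i)) ∈ Y) :
    ∃ s : A, s ∉ P ∧ p ^ (∑ u ∈ Finset.range (T + 1), (h - hl w Y (u + wd w κ))) ∣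
      s * (Matrix.of fun i l => mon (y l) (b i)).det :=
  ul4_gen ψ hψ P p hp w hw m x0 T (fun u => u + wd w κ)
    (fun _ _ hab => Nat.add_le_add_right hab _) (fun s => jw m κ Γ s x0) hD
    (fun s _ g => interp w κ m hm1 hm Γ hΓ x0 s g) b y hy Y hY

end Pool.Agent.H8.UW
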