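import Pool.Agent.H8.UW.Defs
import Pool.Agent.H48.UD.Close

/-!
# Project UW (MP_a3214d), row UW-7: closeness and classes with its own modulus for every coordinate
-/

set_option autoImplicit false

open NumberField Module Polynomial Pool.Agent.H52.UB Pool.Agent.H48.UD Pool.Agent.H52.UL

namespace Pool.Agent.H8.UW

theorem closew {A : Type*} [CommRing A] [IsDomain A] {n q : ℕ} (P : Ideal A) [P.IsPrime] (p : A)
    (hp : p ∈ P) (m : Fin (q + 1) → ℕ) (hm1 : ∀ i, 1 ≤ m i) (hm0 : ∀ i, m i ≤ m 0)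
    (x x' : Fin n → Fin (q + 1) → A) (hF : ∀ ρ, p ^ m ρ.1 ∣ cf x ρ - cf x' ρ)
    (h : dsc x ∉ P) (h' : dsc x' ∉ P) :
    ∃ π : Equiv.Perm (Fin n), ∃ s : A, s ∉ P ∧ ∀ j i, p ^ m i ∣ s * (x j i - x' (π j) i) := by
  classical
  have hp0 : ∀ i, p ^ m i ∈ P := fun i => Ideal.pow_mem_of_mem P hp (m i) (hm1 i)
  have huniq : ∀ j l l', x j 0 - x' l 0 ∈ P → x j 0 - x' l' 0 ∈ P → l = l' := by
    intro j l l' h1 h2
    by_contra hne
    have h3 := P.sub_mem h2 h1
    rw [sub_sub_sub_cancel_left] at h3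
    exact ud2_diff P h' (Ne.symm hne) h3
  have key : ∀ i : Fin (q + 1), ∃ π : Equiv.Perm (Fin n), ∃ s : A, s ∉ P ∧
      (∀ j, p ^ m i ∣ s * (x j i - x' (π j) i)) ∧ ∀ j, x j 0 - x' (π j) 0 ∈ P := by
    intro i
    rcases eq_or_ne i 0 with rfl | hi
    · obtain ⟨π, s, hs, hd⟩ := close (q := 0) P (p ^ m 0) (hp0 0) (fun j _ => x j 0)
        (fun j _ => x' j 0) (by
          rintro ⟨a, t⟩
          obtain rfl : a = 0 := Fin.ext (by have := a.2; rw [Fin.val_zero]; omega)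
          exact hF (0, t)) h h'
      refine ⟨π, s, hs, fun j => hd j 0, fun j => ?_⟩
      have h1 := P.mem_of_dvd (hd j 0) (hp0 0)
      exact (Ideal.IsPrime.mem_or_mem ‹P.IsPrime› h1).resolve_left hs
    · obtain ⟨π, s, hs, hd⟩ := close (q := 1) P (p ^ m i) (hp0 i)
        (fun j a => if a = 0 then x j 0 else x j i)
        (fun j a => if a = 0 then x' j 0 else x' j i) (by
          rintro ⟨a, t⟩
          rcases eq_or_ne a 0 with rfl | ha
          · exact (pow_dvd_pow p (hm0 i)).trans (hF (0, t))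
          · have h1 := hF (i, t)
            unfold cf gP at h1 ⊢
            rw [if_neg hi, if_neg hi] at h1
            rw [if_neg ha, if_neg ha]
            simpa only [if_neg ha, if_true] using h1) h h'
      refine ⟨π, s, hs, fun j => ?_, fun j => ?_⟩
      · have h1 := hd j 1
        simpa using h1
      · have h1 := P.mem_of_dvd (hd j 0) (hp0 i)
        have h2 := (Ideal.IsPrime.mem_or_mem ‹P.IsPrime› h1).resolve_left hs
        simpa using h2
  choose π s hs hd hc using key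
  have hπ : ∀ i, π i = π 0 := by
    intro i
    ext1 j
    exact huniq j _ _ (hc i j) (hc 0 j)
  refine ⟨π 0, ∏ i, s i, ?_, ?_⟩
  · intro hmem
    obtain ⟨i, _, hi⟩ := (Ideal.IsPrime.prod_mem_iff (p := P)).1 hmem
    exact hs i hi
  · intro j i
    have h1 : s i ∣ ∏ i, s i := Finset.dvd_prod_of_mem s (Finset.mem_univ i)
    have h2 := hd i j
    rw [hπ i] at h2
    exact h2.trans (mul_dvd_mul_right h1 _)

theorem class_cardw (k : Type) [Field k] [NumberField k] (p : ℕ) (hp : 0 < p) (ι : Type)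
    [Fintype ι] (μ : ι → ℕ) (V : Set (ι → 𝓞 k)) :
    ∃ R : Finset (ι → 𝓞 k), (R : Set (ι → 𝓞 k)) ⊆ V ∧
      R.card ≤ p ^ (finrank ℚ k * ∑ i, μ i) ∧
      ∀ v ∈ V, ∃ r ∈ R, ∀ i, (p : 𝓞 k) ^ μ i ∣ v i - r i := by
  classical
  set I : ι → Ideal (𝓞 k) := fun i => Ideal.span {((p ^ μ i : ℕ) : 𝓞 k)} with hI
  have hnorm : ∀ i, Ideal.absNorm (I i) = (p ^ μ i) ^ finrank ℚ k := by
    intro i
    rw [hI, Ideal.absNorm_span_natCast, RingOfIntegers.rank]
  have hcard : ∀ i, Nat.card (𝓞 k ⧸ I i) = (p ^ μ i) ^ finrank ℚ k := by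
    intro i
    rw [← hnorm i, Ideal.absNorm_apply]
    rfl
  have hfin : ∀ i, Finite (𝓞 k ⧸ I i) := fun i => Nat.finite_of_card_ne_zero (by
    rw [hcard i]
    exact (pow_pos (pow_pos hp _) _).ne')
  have hft : ∀ i, Fintype (𝓞 k ⧸ I i) := fun i => by
    have := hfin i
    exact Fintype.ofFinite _
  -- the classes
  let c : (ι → 𝓞 k) → (∀ i, 𝓞 k ⧸ I i) := fun v i => Ideal.Quotient.mk (I i) (v i)
  let S : Finset (∀ i, 𝓞 k ⧸ I i) := Finset.univ.filter fun z => ∃ v ∈ V, c v = z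
  have hS : ∀ z ∈ S, ∃ v ∈ V, c v = z := fun z hz => (Finset.mem_filter.1 hz).2
  let g : {z // z ∈ S} → (ι → 𝓞 k) := fun z => (hS z.1 z.2).choose
  have hg1 : ∀ z : {z // z ∈ S}, g z ∈ V := fun z => (hS z.1 z.2).choose_spec.1
  have hg2 : ∀ z : {z // z ∈ S}, c (g z) = z.1 := fun z => (hS z.1 z.2).choose_spec.2
  refine ⟨S.attach.image g, ?_, ?_, ?_⟩
  · intro v hv
    rw [Finset.mem_coe, Finset.mem_image] at hv
    obtain ⟨z, -, rfl⟩ := hv
    exact hg1 z
  · calc (S.attach.image g).card ≤ S.attach.card := Finset.card_image_le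
      _ = S.card := Finset.card_attach
      _ ≤ Fintype.card (∀ i, 𝓞 k ⧸ I i) := Finset.card_le_univ _
      _ = ∏ i, (p ^ μ i) ^ finrank ℚ k := by
        rw [Fintype.card_pi]
        refine Finset.prod_congr rfl fun i _ => ?_
        rw [← Nat.card_eq_fintype_card, hcard i]
      _ = p ^ (finrank ℚ k * ∑ i, μ i) := by
        rw [Finset.prod_pow, Finset.prod_pow_eq_pow_sum, ← pow_mul, mul_comm]
  · intro v hv
    have hvS : c v ∈ S := Finset.mem_filter.2 ⟨Finset.mem_univ _, v, hv, rfl⟩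
    refine ⟨g ⟨c v, hvS⟩, Finset.mem_image.2 ⟨_, Finset.mem_attach _ _, rfl⟩, fun i => ?_⟩
    have h1 := congrFun (hg2 ⟨c v, hvS⟩) i
    have h2 : Ideal.Quotient.mk (I i) (v i - g ⟨c v, hvS⟩ i) = 0 := by
      rw [map_sub, sub_eq_zero]
      exact h1.symm
    rw [Ideal.Quotient.eq_zero_iff_mem] at h2
    have h3 := Ideal.mem_span_singleton.1 h2
    rwa [Nat.cast_pow] at h3

end Pool.Agent.H8.UW
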