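import Pool.Agent.H8.UW.Defs
import Pool.Agent.H52.UL.Blocks

/-!
# UW-10 : block structure of the jet matrix (weights)
-/

set_option autoImplicit false

open NumberField Module Polynomial Pool.Agent.H52.UB Pool.Agent.H48.UD Pool.Agent.H52.UL

namespace Pool.Agent.H8.UW

theorem uw10_jet {R : Type*} [CommRing R] {n r : ℕ} (m κ : Fin r → ℕ) (Γ : Fin n → Fin r → ℕ)
    (s : ℕ) (x : Fin n → Fin r → R) (ρ ρ' : Fin n × Ew m s) :
    jetW m κ Γ s x ρ ρ' = ∏ i, ul13_u (κ i) (κ i * (ρ'.2.1 i : ℕ) + Γ ρ'.1 i) (x ρ.1 i)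
      (ρ.2.1 i : ℕ) := ul13_tay _ _ _ _

theorem map_bjw {A B : Type*} [CommRing A] [CommRing B] (f : A →+* B) {n r : ℕ}
    (m κ : Fin r → ℕ) (Γ : Fin n → Fin r → ℕ) (r0 : ℕ) (lab : Fin n → ℕ) (t s : ℕ)
    (x : Fin n → Fin r → A) :
    f (bjw m κ Γ r0 lab t s x) = bjw m κ Γ r0 lab t s (fun j i => f (x j i)) := by
  classical
  unfold bjw
  rw [RingHom.map_det]
  congr 1
  ext ρ ρ'
  simp only [RingHom.mapMatrix_apply, Matrix.map_apply, Matrix.submatrix_apply]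
  rw [uw10_jet, uw10_jet, map_prod]
  simp only [ul13_map_u]

/-- only the points of the block matter, and the block is invertible at the grid points -/
theorem bjw_grid {F : Type*} [Field F] [CharZero F] {n r : ℕ} (m κ : Fin r → ℕ)
    (Γ : Fin n → Fin r → ℕ) (hΓ : ∀ j i, Γ j i < κ i) (hinj : Function.Injective Γ) (r0 : ℕ)
    (lab : Fin n → ℕ) (t s : ℕ) (x : Fin n → Fin r → F)
    (hx : ∀ j i, lab j = t → x j i = Γ j i) : bjw m κ Γ r0 lab t s x ≠ 0 := by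
  classical
  unfold bjw
  apply ul13_tri _ (fun ρ => ∑ i, (κ i * (ρ.1.2.1 i : ℕ) + Γ ρ.1.1 i))
  · rintro ⟨a, ha, ha'⟩ ⟨b, hb, hb'⟩ hab
    simp only [Matrix.submatrix_apply] at hab
    rw [uw10_jet, Finset.prod_ne_zero_iff] at hab
    have hle : ∀ i ∈ Finset.univ, κ i * (b.2.1 i : ℕ) + Γ b.1 i ≤ κ i * (a.2.1 i : ℕ) + Γ a.1 i := by
      intro i hi
      have h1 := hab i hi
      rw [hx a.1 i ha] at h1
      exact ul13_le (hΓ _ _) h1
    refine ⟨Finset.sum_le_sum hle, ?_⟩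
    intro heq
    have h1 := (Finset.sum_eq_sum_iff_of_le hle).1 heq
    have h2 : ∀ i, (b.2.1 i : ℕ) = a.2.1 i ∧ Γ b.1 i = Γ a.1 i := fun i =>
      ul13_eq (hΓ _ _) (hΓ _ _) (h1 i (Finset.mem_univ i))
    apply Subtype.ext
    apply Prod.ext
    · exact hinj (funext fun i => (h2 i).2)
    · apply Subtype.ext
      funext i
      exact Fin.ext (h2 i).1
  · rintro ⟨a, ha, ha'⟩
    simp only [Matrix.submatrix_apply]
    rw [uw10_jet, Finset.prod_ne_zero_iff]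
    intro i _
    rw [hx a.1 i ha]
    exact ul13_diag (hΓ _ _)

/-- the embedding of the indices of a block: the big exponents are `e0` -/
theorem uw10_emb {r : ℕ} (m : Fin r → ℕ) (hm1 : ∀ i, 1 ≤ m i) (r0 s s' : ℕ) (e0 : Ew m s)
    (hs' : s' = s - ∑ i : Fin r, if (i : ℕ) < r0 then m i * (e0.1 i : ℕ) else 0) :
    ∃ em : {e : Ew m s' //
        ∀ i : Fin r, (i : ℕ) < r0 → e.1 i = 0} → Ew m s,
      Function.Injective em ∧
      (∀ e, ∀ i : Fin r, ((em e).1 i : ℕ) = if (i : ℕ) < r0 then (e0.1 i : ℕ) else (e.1.1 i : ℕ)) ∧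
      ∀ e' : Ew m s, (∀ i : Fin r, (i : ℕ) < r0 → e'.1 i = e0.1 i) → ∃ e, em e = e' := by
  classical
  subst hs'
  set b0 := ∑ i : Fin r, if (i : ℕ) < r0 then m i * (e0.1 i : ℕ) else 0 with hb0
  have hb0s : b0 ≤ s := by
    refine le_trans (Finset.sum_le_sum fun i _ => ?_) e0.2
    split_ifs
    · exact le_rfl
    · exact Nat.zero_le _
  have hsum : ∀ e : {e : Ew m (s - b0) // ∀ i : Fin r, (i : ℕ) < r0 → e.1 i = 0},
      ∑ i : Fin r, m i * (if (i : ℕ) < r0 then (e0.1 i : ℕ) else (e.1.1 i : ℕ)) ≤ s := by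
    intro e
    have h1 : ∑ i : Fin r, m i * (if (i : ℕ) < r0 then (e0.1 i : ℕ) else (e.1.1 i : ℕ)) ≤
        b0 + ∑ i : Fin r, m i * (e.1.1 i : ℕ) := by
      show _ ≤ (∑ i : Fin r, if (i : ℕ) < r0 then m i * (e0.1 i : ℕ) else 0) + _
      rw [← Finset.sum_add_distrib]
      refine Finset.sum_le_sum fun i _ => ?_
      split_ifs
      · exact Nat.le_add_right _ _
      · exact (Nat.zero_add _).ge
    have h2 := e.1.2
    omega
  have hle1 : ∀ (i : Fin r) (a : ℕ), a ≤ m i * a := fun i a =>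
    Nat.le_mul_of_pos_left a (hm1 i)
  have hlt : ∀ (e : {e : Ew m (s - b0) // ∀ i : Fin r, (i : ℕ) < r0 → e.1 i = 0}) (i : Fin r),
      (if (i : ℕ) < r0 then (e0.1 i : ℕ) else (e.1.1 i : ℕ)) < s + 1 := by
    intro e i
    have h1 : m i * (if (i : ℕ) < r0 then (e0.1 i : ℕ) else (e.1.1 i : ℕ)) ≤
        ∑ i : Fin r, m i * (if (i : ℕ) < r0 then (e0.1 i : ℕ) else (e.1.1 i : ℕ)) :=
      Finset.single_le_sum (f := fun i : Fin r =>
        m i * (if (i : ℕ) < r0 then (e0.1 i : ℕ) else (e.1.1 i : ℕ))) (fun _ _ => Nat.zero_le _)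
        (Finset.mem_univ i)
    have h2 := hsum e
    have h3 := hle1 i (if (i : ℕ) < r0 then (e0.1 i : ℕ) else (e.1.1 i : ℕ))
    omega
  refine ⟨fun e => ⟨fun i => ⟨_, hlt e i⟩, hsum e⟩, ?_, fun e i => rfl, ?_⟩
  · intro e e' h
    apply Subtype.ext
    apply Subtype.ext
    funext i
    by_cases hi : (i : ℕ) < r0
    · rw [e.2 i hi, e'.2 i hi]
    · have h1 := congrFun (congrArg Subtype.val h) i
      have h2 := congrArg Fin.val h1
      simp only [if_neg hi] at h2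
      exact Fin.ext h2
  · intro e' he'
    have hs' : ∑ i : Fin r, m i * (if (i : ℕ) < r0 then 0 else (e'.1 i : ℕ)) ≤ s - b0 := by
      have h1 : b0 + ∑ i : Fin r, m i * (if (i : ℕ) < r0 then 0 else (e'.1 i : ℕ)) =
          ∑ i : Fin r, m i * (e'.1 i : ℕ) := by
        show (∑ i : Fin r, if (i : ℕ) < r0 then m i * (e0.1 i : ℕ) else 0) + _ = _
        rw [← Finset.sum_add_distrib]
        refine Finset.sum_congr rfl fun i _ => ?_
        by_cases hi : (i : ℕ) < r0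
        · rw [if_pos hi, if_pos hi, he' i hi, mul_zero, add_zero]
        · rw [if_neg hi, if_neg hi, zero_add]
      have h2 := e'.2
      omega
    have hlt' : ∀ i : Fin r, (if (i : ℕ) < r0 then 0 else (e'.1 i : ℕ)) < s - b0 + 1 := by
      intro i
      have h1 : m i * (if (i : ℕ) < r0 then 0 else (e'.1 i : ℕ)) ≤
          ∑ i : Fin r, m i * (if (i : ℕ) < r0 then 0 else (e'.1 i : ℕ)) :=
        Finset.single_le_sum (f := fun i : Fin r =>
          m i * (if (i : ℕ) < r0 then 0 else (e'.1 i : ℕ))) (fun _ _ => Nat.zero_le _)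
          (Finset.mem_univ i)
      have h3 := hle1 i (if (i : ℕ) < r0 then 0 else (e'.1 i : ℕ))
      omega
    refine ⟨⟨⟨fun i => ⟨_, hlt' i⟩, hs'⟩, ?_⟩, ?_⟩
    · intro i hi
      apply Fin.ext
      simp only [if_pos hi]
      rfl
    · apply Subtype.ext
      funext i
      apply Fin.ext
      by_cases hi : (i : ℕ) < r0
      · simp only [if_pos hi]
        rw [he' i hi]
      · simp only [if_neg hi]

/-- If the coordinates `< r0` are the labels of the blocks and all blocks are invertible, then the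
whole matrix is invertible. -/
theorem jw_ne_of_blocks {F : Type*} [Field F] [CharZero F] {n r : ℕ} (m κ : Fin r → ℕ)
    (hm1 : ∀ i, 1 ≤ m i)
    (Γ : Fin n → Fin r → ℕ) (hΓ : ∀ j i, Γ j i < κ i) (r0 : ℕ) (lab : Fin n → ℕ)
    (hlab : ∀ j l, lab j = lab l ↔ ∀ i : Fin r, (i : ℕ) < r0 → Γ j i = Γ l i) (s : ℕ)
    (x : Fin n → Fin r → F) (hx : ∀ j (i : Fin r), (i : ℕ) < r0 → x j i = Γ j i)
    (h : ∀ s' ≤ s, ∀ j, bjw m κ Γ r0 lab (lab j) s' x ≠ 0) : jw m κ Γ s x ≠ 0 := by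
  classical
  intro h0
  unfold jw at h0
  obtain ⟨v, hv, hAv⟩ := Matrix.exists_mulVec_eq_zero_iff.2 h0
  obtain ⟨a0, ha0⟩ := Function.ne_iff.1 hv
  set big : Fin n × Ew m s → ℕ := fun ρ =>
    ∑ i : Fin r, if (i : ℕ) < r0 then κ i * (ρ.2.1 i : ℕ) + Γ ρ.1 i else 0 with hbig
  obtain ⟨ρ0, hρ0, hmin⟩ := Finset.exists_min_image (Finset.univ.filter fun a => v a ≠ 0) big
    ⟨a0, Finset.mem_filter.2 ⟨Finset.mem_univ _, ha0⟩⟩
  have hv0 := (Finset.mem_filter.1 hρ0).2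
  obtain ⟨l0, e0⟩ := ρ0
  obtain ⟨s', hs'⟩ : ∃ s', s' = s - ∑ i : Fin r, if (i : ℕ) < r0 then m i * (e0.1 i : ℕ) else 0 :=
    ⟨_, rfl⟩
  obtain ⟨em, hem, hem1, hem2⟩ := uw10_emb m hm1 r0 s s' e0 hs'
  apply h s' (by rw [hs']; exact Nat.sub_le _ _) l0
  unfold bjw
  -- the embedding of the indices
  set J := {ρ : Fin n × Ew m s' // lab ρ.1 = lab l0 ∧ ∀ i : Fin r, (i : ℕ) < r0 → ρ.2.1 i = 0}
    with hJ
  set E : J → Fin n × Ew m s := fun ρ => (ρ.1.1, em ⟨ρ.1.2, ρ.2.2⟩) with hE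
  have hEinj : Function.Injective E := by
    rintro ⟨⟨a, e⟩, ha⟩ ⟨⟨b, e'⟩, hb⟩ hab
    have h1 := congrArg Prod.fst hab
    have h2 := hem (congrArg Prod.snd hab)
    simp only [hE] at h1 h2
    have h3 := congrArg Subtype.val h2
    simp only at h3
    subst h1
    subst h3
    rfl
  have hEv : ∀ (ρ : J) (i : Fin r), ((E ρ).2.1 i : ℕ) =
      if (i : ℕ) < r0 then (e0.1 i : ℕ) else (ρ.1.2.1 i : ℕ) := fun ρ i => hem1 _ i
  have hΓ0 : ∀ (ρ : J) (i : Fin r), (i : ℕ) < r0 → Γ ρ.1.1 i = Γ l0 i := fun ρ i hi =>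
    (hlab _ _).1 ρ.2.1 i hi
  have hx0 : ∀ (ρ : J) (i : Fin r), (i : ℕ) < r0 → x ρ.1.1 i = ((Γ l0 i : ℕ) : F) := by
    intro ρ i hi
    rw [hx _ i hi, hΓ0 ρ i hi]
  -- the constants
  set c1 : F := ∏ i : Fin r, if (i : ℕ) < r0 then
    ul13_u (κ i) (κ i * (e0.1 i : ℕ) + Γ l0 i) ((Γ l0 i : ℕ) : F) (e0.1 i : ℕ) else 1 with hc1
  set c2 : F := ∏ i : Fin r, if (i : ℕ) < r0 then
    ul13_u (κ i) (κ i * 0 + Γ l0 i) ((Γ l0 i : ℕ) : F) 0 else 1 with hc2
  have hc1' : c1 ≠ 0 := by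
    rw [hc1, Finset.prod_ne_zero_iff]
    intro i _
    split_ifs
    · exact ul13_diag (hΓ _ _)
    · exact one_ne_zero
  have key : ∀ ρ ρ' : J, c2 * jetW m κ Γ s x (E ρ) (E ρ') = c1 * jetW m κ Γ s' x ρ.1 ρ'.1 := by
    intro ρ ρ'
    rw [uw10_jet, uw10_jet, hc1, hc2, ← Finset.prod_mul_distrib, ← Finset.prod_mul_distrib]
    refine Finset.prod_congr rfl fun i _ => ?_
    rw [hEv, hEv]
    by_cases hi : (i : ℕ) < r0
    · have h1 : (ρ.1.2.1 i : ℕ) = 0 := by rw [ρ.2.2 i hi]; rfl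
      have h2 : (ρ'.1.2.1 i : ℕ) = 0 := by rw [ρ'.2.2 i hi]; rfl
      simp only [if_pos hi]
      rw [h1, h2, hΓ0 ρ' i hi, hx0 ρ i hi, mul_comm]
    · simp only [if_neg hi, one_mul]
      rfl
  -- the kernel vector
  rw [← Matrix.exists_mulVec_eq_zero_iff]
  refine ⟨fun ρ => v (E ρ), ?_, ?_⟩
  · obtain ⟨e1, he1⟩ := hem2 e0 (fun i _ => rfl)
    rw [Function.ne_iff]
    refine ⟨⟨(l0, e1.1), rfl, e1.2⟩, ?_⟩
    show v (l0, em ⟨e1.1, e1.2⟩) ≠ 0
    rw [show (⟨e1.1, e1.2⟩ : {e : Ew m s' // ∀ i : Fin r, (i : ℕ) < r0 → e.1 i = 0}) = e1 from rfl,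
      he1]
    exact hv0
  · funext ρ
    rw [Matrix.mulVec, dotProduct]
    have hrow := congrFun hAv (E ρ)
    rw [Matrix.mulVec, dotProduct] at hrow
    have hsum : ∑ ρ' : J, jetW m κ Γ s x (E ρ) (E ρ') * v (E ρ') =
        ∑ ρ', jetW m κ Γ s x (E ρ) ρ' * v ρ' := by
      apply Fintype.sum_of_injective E hEinj
      · intro ρ' hρ'
        by_contra h3
        apply hρ'
        have h4 : jetW m κ Γ s x (E ρ) ρ' ≠ 0 := fun h => h3 (by rw [h, zero_mul])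
        have h5 : v ρ' ≠ 0 := fun h => h3 (by rw [h, mul_zero])
        rw [uw10_jet, Finset.prod_ne_zero_iff] at h4
        have hle : ∀ i ∈ (Finset.univ : Finset (Fin r)),
            (if (i : ℕ) < r0 then κ i * (ρ'.2.1 i : ℕ) + Γ ρ'.1 i else 0) ≤ (if (i : ℕ) < r0 then κ i * (e0.1 i : ℕ) + Γ l0 i else 0) := by
          intro i hi
          split_ifs with hir
          · have h6 := h4 i hi
            rw [hEv, if_pos hir] at h6
            change ul13_u (κ i) _ (x ρ.1.1 i) _ ≠ 0 at h6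
            rw [hx0 ρ i hir] at h6
            exact ul13_le (hΓ _ _) h6
          · exact le_rfl
        have h6 : big ρ' ≤ big (l0, e0) := Finset.sum_le_sum hle
        have h7 := hmin ρ' (Finset.mem_filter.2 ⟨Finset.mem_univ _, h5⟩)
        have h8 := (Finset.sum_eq_sum_iff_of_le hle).1 (le_antisymm h6 h7)
        have h9 : ∀ i : Fin r, (i : ℕ) < r0 → (ρ'.2.1 i : ℕ) = e0.1 i ∧ Γ ρ'.1 i = Γ l0 i := by
          intro i hi
          have := h8 i (Finset.mem_univ i)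
          rw [if_pos hi, if_pos hi] at this
          exact ul13_eq (hΓ _ _) (hΓ _ _) this
        obtain ⟨e1, he1⟩ := hem2 ρ'.2 (fun i hi => Fin.ext (h9 i hi).1)
        refine ⟨⟨(ρ'.1, e1.1), (hlab _ _).2 fun i hi => (h9 i hi).2, e1.2⟩, ?_⟩
        show (ρ'.1, em ⟨e1.1, e1.2⟩) = ρ'
        rw [show (⟨e1.1, e1.2⟩ : {e : Ew m s' // ∀ i : Fin r, (i : ℕ) < r0 → e.1 i = 0}) = e1
          from rfl, he1]
      · intro ρ'
        rfl
    have h1 : c1 * ∑ ρ' : J, jetW m κ Γ s' x ρ.1 ρ'.1 * v (E ρ') = 0 := by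
      rw [Finset.mul_sum]
      have : ∀ ρ' : J, c1 * (jetW m κ Γ s' x ρ.1 ρ'.1 * v (E ρ')) =
          c2 * (jetW m κ Γ s x (E ρ) (E ρ') * v (E ρ')) := by
        intro ρ'
        rw [← mul_assoc, ← mul_assoc, key]
      rw [Finset.sum_congr rfl fun ρ' _ => this ρ', ← Finset.mul_sum, hsum, hrow]
      simp
    rcases mul_eq_zero.1 h1 with h2 | h2
    · exact absurd h2 hc1'
    · exact h2

end Pool.Agent.H8.UW
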