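import Pool.Agent.H8.UW.Tay
import Pool.Agent.H8.UW.Blocks
import Pool.Agent.H52.UL.PointG
import Pool.Agent.H52.UB.LinePoly
import Pool.Agent.H52.UB.Minima
import Pool.Agent.H52.UB.FreeGal
import Pool.Agent.H52.UB.Dual

/-!
# Project UW (MP_a3214d), row UW-11: points with half the size (helper25)
-/

set_option autoImplicit false

open NumberField Module Polynomial Pool.Agent.H52.UB Pool.Agent.H48.UD
open Pool.Agent.H52.UL (tay phi wd hl point_of_ne)

namespace Pool.Agent.H8.UW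

/-- a polynomial with integer coefficients in affine linear functions is polynomial on lines -/
private theorem uw11_lp0 {F V ι : Type*} [Field F] [AddCommGroup V] [Module F V]
    (G : MvPolynomial ι ℤ) (L : ι → V → F)
    (hL : ∀ (i : ι) (x y : V), ∃ b : F, ∀ t : F, L i (x + t • y) = L i x + t * b) :
    LP G.totalDegree (fun v => MvPolynomial.aeval (fun i => L i v) G) := by
  intro x y
  choose b hb using fun i => hL i x y
  refine ⟨MvPolynomial.aeval (fun i => Polynomial.C (L i x) + Polynomial.X * Polynomial.C (b i))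
    G, ?_, ?_⟩
  · rw [MvPolynomial.aeval_def, MvPolynomial.eval₂_eq]
    refine natDegree_sum_le_of_forall_le _ _ fun m hm => ?_
    have h1 : (algebraMap ℤ F[X]) (MvPolynomial.coeff m G) =
        Polynomial.C ((MvPolynomial.coeff m G : ℤ) : F) := by
      simp
    rw [h1]
    refine (natDegree_C_mul_le _ _).trans ?_
    refine (natDegree_prod_le _ _).trans ?_
    have h2 : ∑ i ∈ m.support, m i ≤ G.totalDegree := MvPolynomial.le_totalDegree hm
    refine le_trans (Finset.sum_le_sum fun i _ => ?_) h2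
    refine natDegree_pow_le.trans ?_
    have h3 : (Polynomial.C (L i x) + Polynomial.X * Polynomial.C (b i)).natDegree ≤ 1 := by
      refine (natDegree_add_le _ _).trans (max_le (by rw [natDegree_C]; exact zero_le_one) ?_)
      exact (natDegree_mul_C_le _ _).trans natDegree_X_le
    calc m i * (Polynomial.C (L i x) + Polynomial.X * Polynomial.C (b i)).natDegree ≤ m i * 1 :=
          Nat.mul_le_mul_left _ h3
      _ = m i := mul_one _
  · intro t
    have h1 : (MvPolynomial.aeval (fun i => Polynomial.C (L i x) +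
        Polynomial.X * Polynomial.C (b i)) G).eval t =
        ((Polynomial.aeval t : F[X] →ₐ[F] F).restrictScalars ℤ)
          (MvPolynomial.aeval (fun i => Polynomial.C (L i x) +
            Polynomial.X * Polynomial.C (b i)) G) := by
      rw [AlgHom.restrictScalars_apply, Polynomial.coe_aeval_eq_eval]
    rw [h1, MvPolynomial.comp_aeval_apply]
    refine congrArg (fun f => MvPolynomial.aeval f G) (funext fun i => ?_)
    rw [hb, AlgHom.restrictScalars_apply, Polynomial.coe_aeval_eq_eval, eval_add, eval_mul,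
      eval_C, eval_C, eval_X]

/-- from a bound of a natural power to a bound with a real exponent (as in UB Point2) -/
theorem uw11_rpow {L C0 X : ℝ} {N : ℕ} (hN : 1 ≤ N) (hL : 0 ≤ L)
    (hX : 1 ≤ X) (h : L ^ N ≤ (C0 * √X) ^ 2) :
    L ≤ (1 + C0 ^ 2) * X ^ (1 / (N : ℝ)) := by
  have hN0 : (N : ℝ) ≠ 0 := by positivity
  have hX0 : 0 ≤ X := by linarith
  have h1 : (C0 * √X) ^ 2 = C0 ^ 2 * X := by
    rw [mul_pow, Real.sq_sqrt hX0]
  rw [h1] at h
  have h2 : L = (L ^ N) ^ (1 / (N : ℝ)) := by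
    rw [← Real.rpow_natCast, ← Real.rpow_mul hL, mul_one_div_cancel hN0, Real.rpow_one]
  have h3 : (L ^ N) ^ (1 / (N : ℝ)) ≤ ((1 + C0 ^ 2) * X) ^ (1 / (N : ℝ)) := by
    refine Real.rpow_le_rpow (by positivity) (h.trans ?_) (by positivity)
    nlinarith [sq_nonneg C0]
  have h4 : (1 + C0 ^ 2) ^ (1 / (N : ℝ)) ≤ (1 + C0 ^ 2) ^ (1 : ℝ) := by
    refine Real.rpow_le_rpow_of_exponent_le (by nlinarith [sq_nonneg C0]) ?_
    rw [div_le_one (by positivity)]
    exact_mod_cast hN
  rw [Real.rpow_one] at h4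
  calc L = (L ^ N) ^ (1 / (N : ℝ)) := h2
    _ ≤ ((1 + C0 ^ 2) * X) ^ (1 / (N : ℝ)) := h3
    _ = (1 + C0 ^ 2) ^ (1 / (N : ℝ)) * X ^ (1 / (N : ℝ)) :=
        Real.mul_rpow (by positivity) hX0
    _ ≤ _ := mul_le_mul_of_nonneg_right h4 (by positivity)

theorem uw11_dsc_ne {A : Type*} [CommRing A] [IsDomain A] {n q : ℕ}
    (x : Fin n → Fin (q + 1) → A) : dsc x ≠ 0 ↔ Function.Injective fun j => x j 0 := by
  unfold dsc
  rw [Finset.prod_ne_zero_iff]
  constructor
  · intro h j l hjl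
    by_contra hne
    have h1 := h j (Finset.mem_univ j)
    rw [Finset.prod_ne_zero_iff] at h1
    exact h1 l (Finset.mem_erase.2 ⟨fun h => hne h.symm, Finset.mem_univ l⟩) (sub_eq_zero.2 hjl)
  · intro h j _
    rw [Finset.prod_ne_zero_iff]
    intro l hl h0
    exact (Finset.mem_erase.1 hl).1 (h (sub_eq_zero.1 h0)).symm

theorem uw11_map_dsc {A B : Type*} [CommRing A] [CommRing B] (f : A →+* B) {n q : ℕ}
    (x : Fin n → Fin (q + 1) → A) : f (dsc x) = dsc (fun j i => f (x j i)) := by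
  unfold dsc
  simp only [map_prod, map_sub]

/-- the polynomials -/
theorem uw11_aeval_dsc {F : Type*} [Field F] {n q : ℕ} (x : Fin n → Fin (q + 1) → F) :
    MvPolynomial.aeval (fun ρ : Fin n × Fin (q + 1) => x ρ.1 ρ.2)
      (dsc (fun (j : Fin n) (i : Fin (q + 1)) =>
        (MvPolynomial.X (j, i) : MvPolynomial (Fin n × Fin (q + 1)) ℤ))) = dsc x := by
  have h := uw11_map_dsc (MvPolynomial.aeval (R := ℤ)
    (fun ρ : Fin n × Fin (q + 1) => x ρ.1 ρ.2)).toRingHom
    (fun (j : Fin n) (i : Fin (q + 1)) => MvPolynomial.X (j, i))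
  simp only [AlgHom.toRingHom_eq_coe, RingHom.coe_coe, MvPolynomial.aeval_X] at h
  exact h

theorem uw11_aeval_jd {F : Type*} [Field F] {n r : ℕ} (m κ : Fin r → ℕ)
    (Γ : Fin n → Fin r → ℕ) (s : ℕ) (x : Fin n → Fin r → F) :
    MvPolynomial.aeval (fun ρ : Fin n × Fin r => x ρ.1 ρ.2)
      (jw m κ Γ s (fun (j : Fin n) (i : Fin r) =>
        (MvPolynomial.X (j, i) : MvPolynomial (Fin n × Fin r) ℤ))) = jw m κ Γ s x := by
  have h := map_jw (MvPolynomial.aeval (R := ℤ)
    (fun ρ : Fin n × Fin r => x ρ.1 ρ.2)).toRingHom m κ Γ s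
    (fun (j : Fin n) (i : Fin r) => MvPolynomial.X (j, i))
  simp only [AlgHom.toRingHom_eq_coe, RingHom.coe_coe, MvPolynomial.aeval_X] at h
  exact h

theorem uw11_aeval_bjd {F : Type*} [Field F] {n r : ℕ} (m κ : Fin r → ℕ)
    (Γ : Fin n → Fin r → ℕ) (r0 : ℕ) (lab : Fin n → ℕ) (t s : ℕ) (x : Fin n → Fin r → F) :
    MvPolynomial.aeval (fun ρ : Fin n × Fin r => x ρ.1 ρ.2)
      (bjw m κ Γ r0 lab t s (fun (j : Fin n) (i : Fin r) =>
        (MvPolynomial.X (j, i) : MvPolynomial (Fin n × Fin r) ℤ))) = bjw m κ Γ r0 lab t s x := by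
  have h := map_bjw (MvPolynomial.aeval (R := ℤ)
    (fun ρ : Fin n × Fin r => x ρ.1 ρ.2)).toRingHom m κ Γ r0 lab t s
    (fun (j : Fin n) (i : Fin r) => MvPolynomial.X (j, i))
  simp only [AlgHom.toRingHom_eq_coe, RingHom.coe_coe, MvPolynomial.aeval_X] at h
  exact h

/-- the subspace of the vectors with `v i l = 0` for `l ≥ σ i` -/
def uw11_W (F : Type*) [Field F] {n r : ℕ} (σ : Fin r → ℕ) : Submodule F (Fin r → Fin n → F) where
  carrier := {v | ∀ (i : Fin r) (l : Fin n), σ i ≤ (l : ℕ) → v i l = 0}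
  add_mem' := by
    intro a b ha hb i l hl
    rw [Pi.add_apply, Pi.add_apply, ha i l hl, hb i l hl, add_zero]
  zero_mem' := by
    intro i l _
    rfl
  smul_mem' := by
    intro c a ha i l hl
    rw [Pi.smul_apply, Pi.smul_apply, ha i l hl, smul_zero]

/-- affine linear functions -/
theorem uw11_aff {F : Type*} [Field F] {n r : ℕ} (w : Fin n → Fin n → F)
    (u : Fin r → Fin n → F) (ρ : Fin n × Fin r) (x y : Fin r → Fin n → F) :
    ∃ b : F, ∀ t : F, ∑ l, (u ρ.2 l + (x + t • y) ρ.2 l) * w l ρ.1 =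
      ∑ l, (u ρ.2 l + x ρ.2 l) * w l ρ.1 + t * b := by
  refine ⟨∑ l, y ρ.2 l * w l ρ.1, fun t => ?_⟩
  rw [Finset.mul_sum, ← Finset.sum_add_distrib]
  refine Finset.sum_congr rfl fun l _ => ?_
  rw [Pi.add_apply, Pi.add_apply, Pi.smul_apply, Pi.smul_apply, smul_eq_mul]
  ring

/-- the polynomial `G` at the combinations with the coefficients `u + v` -/
noncomputable def uw11_f {F : Type*} [Field F] {n r : ℕ} (w : Fin n → Fin n → F)
    (u : Fin r → Fin n → F) (G : MvPolynomial (Fin n × Fin r) ℤ) (v : Fin r → Fin n → F) : F :=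
  MvPolynomial.aeval (fun ρ : Fin n × Fin r => ∑ l, (u ρ.2 l + v ρ.2 l) * w l ρ.1) G

theorem uw11_lp {F : Type*} [Field F] {n r : ℕ} (w : Fin n → Fin n → F)
    (u : Fin r → Fin n → F) (G : MvPolynomial (Fin n × Fin r) ℤ) :
    LP (F := F) (V := Fin r → Fin n → F) G.totalDegree (uw11_f w u G) := by
  have h := uw11_lp0 (F := F) (V := Fin r → Fin n → F) G
    (fun (ρ : Fin n × Fin r) (v : Fin r → Fin n → F) => ∑ l, (u ρ.2 l + v ρ.2 l) * w l ρ.1)
    (fun ρ x y => uw11_aff w u ρ x y)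
  exact h

theorem uw11_common {F : Type*} [Field F] [CharZero F] {n r : ℕ} (w : Fin n → Fin n → F)
    (u : Fin r → Fin n → F) (W : Submodule F (Fin r → Fin n → F)) {ι : Type*} (s : Finset ι)
    (G : ι → MvPolynomial (Fin n × Fin r) ℤ)
    (h : ∀ i ∈ s, ∃ v ∈ W, uw11_f w u (G i) v ≠ 0) :
    ∃ v ∈ W, ∀ i ∈ s, uw11_f w u (G i) v ≠ 0 :=
  lp_common W s (fun i => (G i).totalDegree) (fun i => uw11_f w u (G i))
    (fun i _ => uw11_lp w u (G i)) h

/-- the polynomial of `dsc` -/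
noncomputable def uw11_D (n q : ℕ) : MvPolynomial (Fin n × Fin (q + 1)) ℤ :=
  dsc (fun (j : Fin n) (i : Fin (q + 1)) => MvPolynomial.X (j, i))

/-- the polynomial of `jw` -/
noncomputable def uw11_J {n r : ℕ} (m κ : Fin r → ℕ) (Γ : Fin n → Fin r → ℕ) (s : ℕ) :
    MvPolynomial (Fin n × Fin r) ℤ :=
  jw m κ Γ s (fun (j : Fin n) (i : Fin r) => MvPolynomial.X (j, i))

/-- the polynomial of `bjw` -/
noncomputable def uw11_B {n r : ℕ} (m κ : Fin r → ℕ) (Γ : Fin n → Fin r → ℕ) (r0 : ℕ)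
    (lab : Fin n → ℕ) (t s : ℕ) : MvPolynomial (Fin n × Fin r) ℤ :=
  bjw m κ Γ r0 lab t s (fun (j : Fin n) (i : Fin r) => MvPolynomial.X (j, i))

theorem uw11_fD {F : Type*} [Field F] {n q : ℕ} (w : Fin n → Fin n → F)
    (u v : Fin (q + 1) → Fin n → F) : uw11_f w u (uw11_D n q) v =
      dsc (fun (j : Fin n) (i : Fin (q + 1)) => ∑ l, (u i l + v i l) * w l j) :=
  uw11_aeval_dsc (fun (j : Fin n) (i : Fin (q + 1)) => ∑ l, (u i l + v i l) * w l j)

theorem uw11_fJ {F : Type*} [Field F] {n r : ℕ} (w : Fin n → Fin n → F)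
    (u v : Fin r → Fin n → F) (m κ : Fin r → ℕ) (Γ : Fin n → Fin r → ℕ) (s : ℕ) :
    uw11_f w u (uw11_J m κ Γ s) v =
      jw m κ Γ s (fun (j : Fin n) (i : Fin r) => ∑ l, (u i l + v i l) * w l j) :=
  uw11_aeval_jd m κ Γ s (fun (j : Fin n) (i : Fin r) => ∑ l, (u i l + v i l) * w l j)

theorem uw11_fB {F : Type*} [Field F] {n r : ℕ} (w : Fin n → Fin n → F)
    (u v : Fin r → Fin n → F) (m κ : Fin r → ℕ) (Γ : Fin n → Fin r → ℕ) (r0 : ℕ)
    (lab : Fin n → ℕ) (t s : ℕ) :
    uw11_f w u (uw11_B m κ Γ r0 lab t s) v =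
      bjw m κ Γ r0 lab t s (fun (j : Fin n) (i : Fin r) => ∑ l, (u i l + v i l) * w l j) :=
  uw11_aeval_bjd m κ Γ r0 lab t s (fun (j : Fin n) (i : Fin r) => ∑ l, (u i l + v i l) * w l j)

/-- a vector with all jet matrices invertible -/
theorem uw11_jd {F : Type*} [Field F] [CharZero F] {n r s r0 : ℕ} (m κ : Fin r → ℕ)
    (hm1 : ∀ i, 1 ≤ m i)
    (Γ : Fin n → Fin r → ℕ) (hΓ : ∀ j i, Γ j i < κ i) (hinj : Function.Injective Γ)
    (blk : Fin n → ℕ)
    (hlab : ∀ j l, blk j = blk l ↔ ∀ i : Fin r, (i : ℕ) < r0 → Γ j i = Γ l i)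
    (w : Fin n → Fin n → F) (h1 : ∀ t, FreeAt w s {j | blk j = t})
    (h2 : FreeAt w n Set.univ) (S : ℕ) :
    ∃ v ∈ uw11_W F (n := n) (fun i : Fin r => if (i : ℕ) < r0 then n else s), ∀ s' ≤ S,
      jw m κ Γ s' (fun j i => ∑ l, v i l * w l j) ≠ 0 := by
  classical
  -- the big coordinates
  have hbig : ∀ i : Fin r, ∃ v : Fin n → F, ∀ j, ∑ l, v l * w l j = (Γ j i : F) := by
    intro i
    obtain ⟨v, _, hv⟩ := h2 (fun j => (Γ j i : F))
    exact ⟨v, fun j => hv j (Set.mem_univ j)⟩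
  choose vb hvb using hbig
  have hsmall : ∀ (t : ℕ) (i : Fin r), ∃ v : Fin n → F, (∀ l : Fin n, s ≤ (l : ℕ) → v l = 0) ∧
      ∀ j, blk j = t → ∑ l, v l * w l j = (Γ j i : F) := by
    intro t i
    obtain ⟨v, hv0, hv⟩ := h1 t (fun j => (Γ j i : F))
    exact ⟨v, hv0, fun j hj => hv j hj⟩
  choose vs hvs0 hvs using hsmall
  set u : Fin r → Fin n → F := fun i l => if (i : ℕ) < r0 then vb i l else 0 with hu
  -- a common non-zero of the block determinants
  obtain ⟨v, hvW, hv⟩ := uw11_common w u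
    (uw11_W F (n := n) (fun i : Fin r => if (i : ℕ) < r0 then 0 else s))
    (Finset.univ ×ˢ Finset.range (S + 1) : Finset (Fin n × ℕ))
    (fun p => uw11_B m κ Γ r0 blk (blk p.1) p.2)
    (by
      intro p _
      refine ⟨fun i l => if (i : ℕ) < r0 then 0 else vs (blk p.1) i l, ?_, ?_⟩
      · intro i l hl
        by_cases hi : (i : ℕ) < r0
        · simp only [if_pos hi]
        · simp only [if_neg hi] at hl ⊢
          exact hvs0 _ i l hl
      · rw [uw11_fB]
        refine bjw_grid m κ Γ hΓ hinj r0 blk _ _ _ fun j i hj => ?_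
        by_cases hi : (i : ℕ) < r0
        · simp only [hu, if_pos hi, add_zero]
          exact hvb i j
        · simp only [hu, if_neg hi, zero_add]
          exact hvs _ i j hj)
  refine ⟨fun i l => u i l + v i l, ?_, fun s' hs' => ?_⟩
  · intro i l hl
    by_cases hi : (i : ℕ) < r0
    · simp only [if_pos hi] at hl
      exact absurd l.2 (not_lt.2 hl)
    · simp only [if_neg hi] at hl
      have h3 := hvW i l (by simp only [if_neg hi]; exact hl)
      simp only [hu, if_neg hi, zero_add]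
      exact h3
  · refine jw_ne_of_blocks m κ hm1 Γ hΓ r0 blk hlab s' _ (fun j i hi => ?_) fun s'' hs'' j => ?_
    · have h3 : ∀ l, v i l = 0 := fun l =>
        hvW i l (by simp only [if_pos hi]; exact Nat.zero_le _)
      simp only [hu, if_pos hi, h3, add_zero]
      exact hvb i j
    · have h4 := hv (j, s'') (Finset.mem_product.2 ⟨Finset.mem_univ _,
        Finset.mem_range.2 (by omega)⟩)
      rw [uw11_fB] at h4
      exact h4

/-- the polynomial -/
noncomputable def uw11_G {n q : ℕ} (m κ : Fin (q + 1) → ℕ) (Γ : Fin n → Fin (q + 1) → ℕ) (S : ℕ) :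
    MvPolynomial (Fin n × Fin (q + 1)) ℤ :=
  uw11_D n q * ∏ s' ∈ Finset.range (S + 1), uw11_J m κ Γ s'

theorem uw11_G_ne {F : Type*} [Field F] {n q : ℕ} (m κ : Fin (q + 1) → ℕ)
    (Γ : Fin n → Fin (q + 1) → ℕ) (S : ℕ) (x : Fin n → Fin (q + 1) → F)
    (h : MvPolynomial.aeval (fun ρ : Fin n × Fin (q + 1) => x ρ.1 ρ.2) (uw11_G m κ Γ S) ≠ 0) :
    (Function.Injective fun j => x j 0) ∧ ∀ s' ≤ S, jw m κ Γ s' x ≠ 0 := by
  unfold uw11_G at h
  rw [map_mul, map_prod] at h
  have h1 := left_ne_zero_of_mul h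
  have h2 := right_ne_zero_of_mul h
  rw [Finset.prod_ne_zero_iff] at h2
  unfold uw11_D at h1
  rw [uw11_aeval_dsc x, uw11_dsc_ne] at h1
  refine ⟨h1, fun s' hs' => ?_⟩
  have h3 := h2 s' (Finset.mem_range.2 (by omega))
  unfold uw11_J at h3
  rwa [uw11_aeval_jd] at h3

theorem uw11_point {F : Type*} [Field F] [CharZero F] {n q s r0 : ℕ} (hr0 : 1 ≤ r0)
    (m κ : Fin (q + 1) → ℕ) (hm1 : ∀ i, 1 ≤ m i)
    (Γ : Fin n → Fin (q + 1) → ℕ) (hΓ : ∀ j i, Γ j i < κ i) (hinj : Function.Injective Γ)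
    (blk : Fin n → ℕ)
    (hlab : ∀ j l, blk j = blk l ↔ ∀ i : Fin (q + 1), (i : ℕ) < r0 → Γ j i = Γ l i)
    (w : Fin n → Fin n → F) (h1 : ∀ t, FreeAt w s {j | blk j = t})
    (h2 : FreeAt w n Set.univ) (S : ℕ) :
    ∃ v : Fin (q + 1) → Fin n → F,
      (∀ (i : Fin (q + 1)) (l : Fin n), (if (i : ℕ) < r0 then n else s) ≤ (l : ℕ) → v i l = 0) ∧
      MvPolynomial.aeval (fun ρ : Fin n × Fin (q + 1) => ∑ l, v ρ.2 l * w l ρ.1)
        (uw11_G m κ Γ S) ≠ 0 := by
  classical
  obtain ⟨va, hvaW, hva⟩ := uw11_jd m κ hm1 Γ hΓ hinj blk hlab w h1 h2 S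
  obtain ⟨vc, _, hvc⟩ := h2 (fun j => ((j : ℕ) : F))
  obtain ⟨v, hvW, hv⟩ := uw11_common w (fun _ _ => 0)
    (uw11_W F (n := n) (fun i : Fin (q + 1) => if (i : ℕ) < r0 then n else s))
    (Finset.range (S + 2))
    (fun b => if b = S + 1 then uw11_D n q else uw11_J m κ Γ b)
    (by
      intro b hb
      by_cases hbS : b = S + 1
      · refine ⟨fun i l => if (i : ℕ) < r0 then vc l else 0, ?_, ?_⟩
        · intro i l hl
          by_cases hi : (i : ℕ) < r0
          · simp only [if_pos hi] at hl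
            exact absurd l.2 (not_lt.2 hl)
          · simp only [if_neg hi]
        · rw [if_pos hbS, uw11_fD, uw11_dsc_ne]
          intro j l hjl
          have h0 : ((0 : Fin (q + 1)) : ℕ) < r0 := by
            rw [Fin.val_zero]
            omega
          simp only [if_pos h0, zero_add] at hjl
          rw [hvc j (Set.mem_univ j), hvc l (Set.mem_univ l)] at hjl
          exact Fin.ext (Nat.cast_injective hjl)
      · refine ⟨va, hvaW, ?_⟩
        rw [if_neg hbS, uw11_fJ]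
        simp only [zero_add]
        exact hva b (by have := Finset.mem_range.1 hb; omega))
  refine ⟨v, hvW, ?_⟩
  unfold uw11_G
  rw [map_mul, map_prod]
  refine mul_ne_zero ?_ (Finset.prod_ne_zero_iff.2 fun s' hs' => ?_)
  · have h3 := hv (S + 1) (Finset.mem_range.2 (by omega))
    rw [if_pos rfl] at h3
    unfold uw11_f at h3
    simp only [zero_add] at h3
    exact h3
  · have h4 := Finset.mem_range.1 hs'
    have h3 := hv s' (Finset.mem_range.2 (by omega))
    rw [if_neg (by omega)] at h3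
    unfold uw11_f at h3
    simp only [zero_add] at h3
    exact h3

theorem exists_strong (k : Type) [Field k] [NumberField k] {n q s r0 : ℕ} (hn : 1 ≤ n)
    (hs : 1 ≤ s) (hsn : s ≤ n) (hr0 : 1 ≤ r0) (m κ : Fin (q + 1) → ℕ) (hm1 : ∀ i, 1 ≤ m i)
    (Γ : Fin n → Fin (q + 1) → ℕ) (hΓ : ∀ j i, Γ j i < κ i) (hinj : Function.Injective Γ)
    (blk : Fin n → ℕ) (hb : BlockOK n s blk)
    (hlab : ∀ j l, blk j = blk l ↔ ∀ i : Fin (q + 1), (i : ℕ) < r0 → Γ j i = Γ l i) (S : ℕ) :
    ∃ C0 : ℝ, 1 ≤ C0 ∧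
      ∀ (M : IntermediateField k (AlgebraicClosure k)) [NumberField M], finrank k M = n →
      ∀ X : ℝ, 1 ≤ X → |(discr M : ℝ)| ≤ X →
      ∃ (e : (M →ₐ[k] AlgebraicClosure k) ≃ Fin n) (x : Fin (q + 1) → 𝓞 M),
        (∀ i : Fin (q + 1), house (x i : M) ≤ C0 * X ^ ((if (i : ℕ) < r0 then 2 else 1) *
          (1 / (2 * (n - s + 1))) / finrank ℚ k : ℝ)) ∧
        (Function.Injective fun j => e.symm j (x 0 : M)) ∧
        ∀ s' ≤ S, jw m κ Γ s' (fun j i => e.symm j (x i : M)) ≠ 0 := by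
  classical
  obtain ⟨C0, hC0, hprod⟩ := minSys_prod k n
  refine ⟨1 + (n * (uw11_G m κ Γ S).totalDegree) * (1 + C0 ^ 2), ?_, ?_⟩
  · have : (0 : ℝ) ≤ (n * (uw11_G m κ Γ S).totalDegree) * (1 + C0 ^ 2) := by positivity
    linarith
  intro M _ hd X hX hdisc
  obtain ⟨θ, lam, hmin⟩ := exists_minSys k M n hd
  obtain ⟨e, h1, h2⟩ := exists_numbering hsn hd (fun i => (θ i : M)) hmin.indep blk hb
  have hmk : 1 ≤ finrank ℚ k := finrank_pos
  have hm0 : (0 : ℝ) < finrank ℚ k := by exact_mod_cast hmk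
  have hX0 : (0 : ℝ) < X := by linarith
  have hsqrt : √|(discr M : ℝ)| ≤ √X := Real.sqrt_le_sqrt hdisc
  have hP2 : (C0 * √|(discr M : ℝ)|) ^ 2 ≤ (C0 * √X) ^ 2 :=
    pow_le_pow_left₀ (by positivity) (mul_le_mul_of_nonneg_left hsqrt hC0.le) 2
  have hP := hprod M hd θ lam hmin
  have hsn' : (s : ℝ) ≤ n := by exact_mod_cast hsn
  have hs' : (1 : ℝ) ≤ s := by exact_mod_cast hs
  obtain ⟨v, hv0, hv⟩ := uw11_point hr0 m κ hm1 Γ hΓ hinj blk hlab
    (fun l j => e.symm j (θ l : M)) h1 h2 S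
  obtain ⟨x, hx, hne⟩ := point_of_ne (uw11_G m κ Γ S)
    (fun i : Fin (q + 1) => if (i : ℕ) < r0 then n else s) e θ lam hmin v hv0 hv
    (fun i => (1 + C0 ^ 2) * X ^ ((if (i : ℕ) < r0 then 2 else 1) *
          (1 / (2 * (n - s + 1))) / finrank ℚ k : ℝ)) (fun i => by positivity)
    (by
      intro i l hl
      by_cases hi : (i : ℕ) < r0
      · -- the last minimum
        set l0 : Fin n := ⟨n - 1, by omega⟩ with hl0
        have hl0n : (l0 : ℕ) + 1 = n := by
          rw [hl0]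
          show n - 1 + 1 = n
          omega
        have hle : lam l ≤ lam l0 := by
          refine hmin.mono ?_
          rw [Fin.le_def]
          have := l.2
          omega
        have h3 := lam_top lam hmin.one_le l0 hl0n
          (fun i j hij => dual_submul hd hmin i j l0 hij hl0n) _ hP
        have h4 := uw11_rpow (Nat.one_le_iff_ne_zero.2 (Nat.mul_ne_zero (by omega) (by omega)))
          (by linarith [hmin.one_le l0]) hX (h3.trans hP2)
        refine hle.trans (h4.trans (mul_le_mul_of_nonneg_left ?_ (by positivity)))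
        refine Real.rpow_le_rpow_of_exponent_le hX ?_
        rw [if_pos hi, Nat.cast_mul]
        have hn0 : (0 : ℝ) < n := by exact_mod_cast hn
        have h5 : (2 : ℝ) * (1 / (2 * (n - s + 1))) / finrank ℚ k =
            1 / (finrank ℚ k * (n - s + 1)) := by
          have h6 : (n : ℝ) - s + 1 ≠ 0 := by linarith
          field_simp
        rw [h5]
        refine one_div_le_one_div_of_le (mul_pos hm0 (by linarith)) ?_
        exact mul_le_mul_of_nonneg_left (by linarith) hm0.le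
      · simp only [if_neg hi] at hl ⊢
        set l0 : Fin n := ⟨s - 1, by omega⟩ with hl0
        have hl0s : (l0 : ℕ) = s - 1 := rfl
        have hle : lam l ≤ lam l0 := by
          refine hmin.mono ?_
          rw [Fin.le_def]
          omega
        have h3 := lam_triv lam hmin.mono hmin.one_le _ hP l0
        rw [hl0s] at h3
        have h4 := uw11_rpow (Nat.one_le_iff_ne_zero.2 (Nat.mul_ne_zero (by omega) (by omega)))
          (by linarith [hmin.one_le l0]) hX (h3.trans hP2)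
        refine hle.trans (h4.trans (le_of_eq ?_))
        have h5 : (1 : ℝ) / ((finrank ℚ k * (2 * (n - (s - 1))) : ℕ) : ℝ) =
            1 * (1 / (2 * (n - s + 1))) / finrank ℚ k := by
          rw [one_mul, div_div, Nat.cast_mul, Nat.cast_mul, Nat.cast_sub (by omega),
            Nat.cast_sub hs]
          push_cast
          ring
        rw [h5])
  have hne' := uw11_G_ne m κ Γ S (fun j i => e.symm j (x i : M)) hne
  refine ⟨e, x, fun i => (hx i).trans ?_, hne'.1, hne'.2⟩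
  have hE0 : 0 ≤ X ^ ((if (i : ℕ) < r0 then 2 else 1) *
          (1 / (2 * (n - s + 1))) / finrank ℚ k : ℝ) := by positivity
  nlinarith

end Pool.Agent.H8.UW
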