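import Pool.Agent.H52.UB.Blocks
import Pool.Agent.H52.UL.HalfA
import Pool.Agent.H8.UW.Count
import Pool.Agent.H8.UW.Strong

/-!
# Project UW (MP_a3214d), row UW-12: the bound with half the exponent

Assembly of `exists_blocks`, `uw12_gam`, `exists_strong` and `count_uw`.
-/

set_option autoImplicit false

open NumberField Module Polynomial Pool.Agent.H52.UB Pool.Agent.H48.UD Pool.Agent.H52.UL

namespace Pool.Agent.H8.UW

/-- labels with `r0` binary digits, positions with `r1` digits in base `b` -/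
theorem uw12_gam (b : ℕ) (hb1 : 1 ≤ b) (n s r0 r1 q : ℕ) (hq : q + 1 = r0 + r1) (blk : Fin n → ℕ)
    (hb : BlockOK n s blk) (h0 : ∀ j, blk j < 2 ^ r0) (h1 : s ≤ b ^ r1) :
    ∃ Γ : Fin n → Fin (q + 1) → ℕ,
      (∀ j (i : Fin (q + 1)), Γ j i < if (i : ℕ) < r0 then 2 else b) ∧
      Function.Injective Γ ∧
      (∀ j l, blk j = blk l ↔ ∀ i : Fin (q + 1), (i : ℕ) < r0 → Γ j i = Γ l i) := by
  set Γ : Fin n → Fin (q + 1) → ℕ := fun j i =>
    if (i : ℕ) < r0 then blk j / 2 ^ (i : ℕ) % 2 else ul15_pos blk j / b ^ ((i : ℕ) - r0) % b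
    with hΓ
  have hlab : ∀ j l, blk j = blk l ↔ ∀ i : Fin (q + 1), (i : ℕ) < r0 → Γ j i = Γ l i := by
    intro j l
    constructor
    · intro h i hi
      simp only [hΓ, hi, if_true, h]
    · intro h
      refine ul15_digits 2 r0 _ _ (h0 j) (h0 l) fun i hi => ?_
      have h2 := h ⟨i, by omega⟩ hi
      simpa only [hΓ, hi, if_true] using h2
  refine ⟨Γ, ?_, ?_, hlab⟩
  · intro j i
    simp only [hΓ]
    split_ifs
    · exact Nat.mod_lt _ (by norm_num)
    · exact Nat.mod_lt _ hb1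
  · intro j l h
    have hbl : blk j = blk l := (hlab j l).2 fun i _ => congrFun h i
    refine ul15_pos_inj blk hbl ?_
    have hp : ∀ t : Fin n, ul15_pos blk t < b ^ r1 := fun t =>
      lt_of_lt_of_le (ul15_pos_lt blk t) ((ul15_card_le blk hb _).trans h1)
    refine ul15_digits b r1 _ _ (hp j) (hp l) fun i hi => ?_
    have h2 := congrFun h ⟨r0 + i, by omega⟩
    have h3 : ¬ (r0 + i < r0) := by omega
    simpa only [hΓ, h3, if_false, Nat.add_sub_cancel_left] using h2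

theorem uw12_sum (q r0 r1 : ℕ) (hq : q + 1 = r0 + r1) :
    ∑ i : Fin (q + 1), (if (i : ℕ) < r0 then 4 else 3) = 4 * r0 + 3 * r1 := by
  rw [Fin.sum_univ_eq_sum_range (fun i => if i < r0 then 4 else 3) (q + 1), hq,
    Finset.sum_range_add]
  have h1 : ∑ x ∈ Finset.range r0, (if x < r0 then 4 else 3) = ∑ _x ∈ Finset.range r0, 4 :=
    Finset.sum_congr rfl fun x hx => if_pos (Finset.mem_range.1 hx)
  have h2 : ∑ x ∈ Finset.range r1, (if r0 + x < r0 then 4 else 3) = ∑ _x ∈ Finset.range r1, 3 :=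
    Finset.sum_congr rfl fun x _ => if_neg (by omega)
  rw [h1, h2, Finset.sum_const, Finset.sum_const, Finset.card_range, Finset.card_range,
    smul_eq_mul, smul_eq_mul, mul_comm, mul_comm r1]

theorem half (n s r0 r1 : ℕ) (hn : 1 ≤ n) (hs : 1 ≤ s) (hsn : s ≤ n) (hr0 : 1 ≤ r0)
    (h0 : (n : ℝ) / s * Real.log n + 1 ≤ 2 ^ r0) (h1 : s ≤ 3 ^ r1) (k : Type) [Field k]
    [NumberField k] (ε : ℝ) (hε : 0 < ε) : ∃ C : ℝ, ∀ B : ℝ, 1 ≤ B → Finite (ExtCls k n B) ∧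
      (extCount k n B : ℝ) ≤ C * B ^ ((4 * r0 + 3 * r1) / 2 * (n / (n - s + 1)) + ε : ℝ) := by
  obtain ⟨T, blk, hb, hT, hTn⟩ := exists_blocks n s hs hsn
  have hT2 : T ≤ 2 ^ r0 := by
    have : (T : ℝ) ≤ ((2 ^ r0 : ℕ) : ℝ) := by push_cast; exact hTn.trans h0
    exact_mod_cast this
  obtain ⟨q, hq⟩ : ∃ q, q + 1 = r0 + r1 := ⟨r0 + r1 - 1, by omega⟩
  obtain ⟨Γ, hΓ, hinj, hlab⟩ := uw12_gam 3 (by norm_num) n s r0 r1 q hq blk hb
    (fun j => lt_of_lt_of_le (hT j) hT2) h1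
  have hnR : (1 : ℝ) ≤ n := by exact_mod_cast hn
  have hsnR : (s : ℝ) ≤ n := by exact_mod_cast hsn
  have hd : (0 : ℝ) < n - s + 1 := by linarith
  set κ : Fin (q + 1) → ℕ := fun i => if (i : ℕ) < r0 then 2 else 3 with hκ
  set w : Fin (q + 1) → ℕ := fun i => if (i : ℕ) < r0 then 2 else 1 with hw
  set m : Fin (q + 1) → ℕ := fun i => if (i : ℕ) < r0 then 4 else 3 with hm
  have hw1 : ∀ i, 1 ≤ w i := by
    intro i
    simp only [hw]
    split_ifs <;> norm_num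
  have hm1 : ∀ i, 1 ≤ m i := by
    intro i
    simp only [hm]
    split_ifs <;> norm_num
  have hK : ∀ i, w i * κ i ≤ m i := by
    intro i
    simp only [hw, hκ, hm]
    split_ifs <;> norm_num
  have hm0 : ∀ i, m i ≤ m 0 := by
    intro i
    have h00 : ((0 : Fin (q + 1)) : ℕ) < r0 := by
      rw [Fin.val_zero]
      exact hr0
    simp only [hm, h00, if_true]
    split_ifs <;> norm_num
  have hsum : ∑ i, m i = 4 * r0 + 3 * r1 := uw12_sum q r0 r1 hq
  have hr0R : (1 : ℝ) ≤ r0 := by exact_mod_cast hr0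
  have hsR : (0 : ℝ) < 4 * r0 + 3 * r1 := by positivity
  set ε' : ℝ := ε * (2 * (n - s + 1)) / ((4 * r0 + 3 * r1) * n) with hε'
  have hε'0 : 0 < ε' := by
    rw [hε']
    positivity
  obtain ⟨S, hS⟩ := count_uw k (n := n) (q := q) hn w κ m hw1 hm1 hK hm0 Γ hΓ
    (1 + ε') (by linarith) (1 / (2 * (n - s + 1))) (by positivity) 0
  obtain ⟨C0, hC0, hM⟩ := exists_strong k (n := n) (q := q) (s := s) (r0 := r0) hn hs hsn hr0 m κ
    hm1 Γ hΓ hinj blk hb hlab S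
  obtain ⟨C, hC⟩ := hS ⟨C0, 1, hC0, one_pos, by
    intro M _ hM1 X hX hd'
    obtain ⟨e, x, hx1, hx2, hx3⟩ := hM M hM1 X hX hd'
    refine ⟨e, {x}, by simp, fun y hy => ?_⟩
    rw [Finset.mem_singleton] at hy
    subst hy
    refine ⟨fun i => ?_, hx2, hx3⟩
    refine (hx1 i).trans (le_of_eq ?_)
    simp only [hw]
    split_ifs <;> norm_num⟩
  refine ⟨C, fun B hB => ?_⟩
  obtain ⟨hf, hle⟩ := hC B hB
  refine ⟨hf, hle.trans (le_of_eq ?_)⟩
  congr 2
  rw [hsum, hε']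
  push_cast
  field_simp
  ring

end Pool.Agent.H8.UW
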