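import Pool.Agent.H8.UW.Defs
import Pool.Agent.H52.UL.Grid

/-!
# Project UW, row UW-2: the jet matrix at the grid points is invertible

Same triangular argument as for UL-2, for the index set of the exponents of weight at most `s`.
-/

set_option autoImplicit false

open NumberField Module Polynomial Pool.Agent.H52.UB Pool.Agent.H48.UD
open Pool.Agent.H52.UL (tay phi ul2_tay ul2_coeff_ne ul2_coeff_zero)

namespace Pool.Agent.H8.UW

/-- the jet matrix at the grid points is invertible -/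
theorem grid_det {n r : ℕ} (m κ : Fin r → ℕ) (Γ : Fin n → Fin r → ℕ) (hΓ : ∀ j i, Γ j i < κ i)
    (hinj : Function.Injective Γ) (s : ℕ) : jw m κ Γ s (fun j i => ((Γ j i : ℕ) : ℤ)) ≠ 0 := by
  classical
  intro hdet
  unfold jw at hdet
  rw [← Matrix.exists_mulVec_eq_zero_iff] at hdet
  obtain ⟨v, hv, hMv⟩ := hdet
  -- the index
  let N : Fin n × Ew m s → Fin r → ℕ := fun ρ i => κ i * (ρ.2.1 i : ℕ) + Γ ρ.1 i
  have hN : ∀ ρ ρ', (∀ i, N ρ i = N ρ' i) → ρ = ρ' := by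
    intro ρ ρ' h
    have h1 : ∀ i, (ρ.2.1 i : ℕ) = ρ'.2.1 i ∧ Γ ρ.1 i = Γ ρ'.1 i := by
      intro i
      have hi : κ i * (ρ.2.1 i : ℕ) + Γ ρ.1 i = κ i * (ρ'.2.1 i : ℕ) + Γ ρ'.1 i := h i
      have ha := congrArg (· / κ i) hi
      have hb := congrArg (· % κ i) hi
      have hpos : 0 < κ i := lt_of_le_of_lt (Nat.zero_le _) (hΓ ρ.1 i)
      simp only [Nat.mul_add_div hpos, Nat.div_eq_of_lt (hΓ ρ.1 i),
        Nat.div_eq_of_lt (hΓ ρ'.1 i), add_zero] at ha
      simp only [Nat.mul_add_mod, Nat.mod_eq_of_lt (hΓ ρ.1 i),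
        Nat.mod_eq_of_lt (hΓ ρ'.1 i)] at hb
      exact ⟨ha, hb⟩
    refine Prod.ext (hinj (funext fun i => (h1 i).2)) (Subtype.ext (funext fun i => ?_))
    exact Fin.ext (h1 i).1
  -- the minimal element of the support
  obtain ⟨ρ1, hρ1⟩ : ∃ ρ, v ρ ≠ 0 := by
    by_contra hcon
    push Not at hcon
    exact hv (funext hcon)
  obtain ⟨ρ0, hρ0, hmin⟩ := Finset.exists_min_image (Finset.univ.filter fun ρ => v ρ ≠ 0)
    (fun ρ => ∑ i, N ρ i) ⟨ρ1, by simpa using hρ1⟩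
  have hv0 : v ρ0 ≠ 0 := (Finset.mem_filter.1 hρ0).2
  have hrow := congrFun hMv ρ0
  rw [Matrix.mulVec, dotProduct, Pi.zero_apply, Finset.sum_eq_single ρ0] at hrow
  · refine (mul_ne_zero ?_ hv0) hrow
    show tay _ _ _ ≠ 0
    rw [ul2_tay]
    refine Finset.prod_ne_zero_iff.2 fun i _ => ?_
    exact ul2_coeff_ne (hΓ ρ0.1 i)
  · intro ρ _ hρ
    by_cases hvρ : v ρ = 0
    · rw [hvρ, mul_zero]
    have hle := hmin ρ (by simpa using hvρ)
    obtain ⟨i, hi⟩ : ∃ i, N ρ0 i < N ρ i := by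
      by_contra hcon
      push Not at hcon
      apply hρ
      apply hN
      intro i
      have hsum : ∑ i, N ρ i = ∑ i, N ρ0 i :=
        le_antisymm (Finset.sum_le_sum fun i _ => hcon i) hle
      exact (Finset.sum_eq_sum_iff_of_le (fun i _ => hcon i)).1 hsum i (Finset.mem_univ i)
    have : jetW m κ Γ s (fun j i => ((Γ j i : ℕ) : ℤ)) ρ0 ρ = 0 := by
      show tay _ _ _ = 0
      rw [ul2_tay]
      refine Finset.prod_eq_zero (Finset.mem_univ i) ?_
      exact ul2_coeff_zero (hΓ ρ0.1 i) hi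
    rw [this, zero_mul]
  · intro h; exact absurd (Finset.mem_univ _) h

end Pool.Agent.H8.UW
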