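import Pool.Agent.H8.UW.Tay
import Pool.Agent.H8.UW.Grid
import Pool.Agent.H8.UW.Count
import Pool.Agent.H52.UL.PointBox

/-!
# Project UW (MP_a3214d), row UW-9: the explicit theorem

All weights are `1`, the moduli are `p ^ κ i`, and the points `Γ j` are any `n` distinct points of
the grid `∏ i, {0, …, κ i - 1}`. The coordinates are reordered such that `κ 0` is maximal.
-/

set_option autoImplicit false

open NumberField Module Polynomial Pool.Agent.H52.UB Pool.Agent.H48.UD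
open Pool.Agent.H52.UL (tay phi wd hl exists_pointsG)

namespace Pool.Agent.H8.UW

/-- `n` distinct points of the grid -/
private theorem uw9_grid (n q : ℕ) (κ : Fin (q + 1) → ℕ) (hnκ : n ≤ ∏ i, κ i) :
    ∃ Γ : Fin n → Fin (q + 1) → ℕ, (∀ j i, Γ j i < κ i) ∧ Function.Injective Γ := by
  have hcard : Fintype.card (Fin n) ≤ Fintype.card ((i : Fin (q + 1)) → Fin (κ i)) := by
    simpa using hnκ
  obtain ⟨f⟩ := Function.Embedding.nonempty_of_card_le hcard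
  refine ⟨fun j i => (f j i : ℕ), fun j i => (f j i).2, fun j l h => f.injective ?_⟩
  funext i
  exact Fin.ext (congrFun h i)

/-- the polynomial in the conjugates which must not vanish -/
private noncomputable def uw9_G {n q : ℕ} (m κ : Fin (q + 1) → ℕ) (Γ : Fin n → Fin (q + 1) → ℕ)
    (S : ℕ) : MvPolynomial (Fin n × Fin (q + 1)) ℤ :=
  (∏ j, ∏ l ∈ Finset.univ.erase j, (MvPolynomial.X (j, 0) - MvPolynomial.X (l, 0))) *
    ∏ s ∈ Finset.range (S + 1), jw m κ Γ s (fun j i => MvPolynomial.X (j, i))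

private theorem uw9_G_ne {n q : ℕ} (m κ : Fin (q + 1) → ℕ) (Γ : Fin n → Fin (q + 1) → ℕ)
    (hΓ : ∀ j i, Γ j i < κ i) (hinj : Function.Injective Γ) (S : ℕ) : uw9_G m κ Γ S ≠ 0 := by
  refine mul_ne_zero ?_ ?_
  · refine Finset.prod_ne_zero_iff.2 fun j _ => Finset.prod_ne_zero_iff.2 fun l hl => ?_
    have hlj : l ≠ j := (Finset.mem_erase.1 hl).1
    rw [sub_ne_zero]
    intro h
    have := MvPolynomial.X_injective h
    exact hlj (congrArg Prod.fst this).symm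
  · refine Finset.prod_ne_zero_iff.2 fun s _ h => ?_
    have h2 := map_jw (MvPolynomial.eval (fun ρ : Fin n × Fin (q + 1) => ((Γ ρ.1 ρ.2 : ℕ) : ℤ)))
      m κ Γ s (fun j i => (MvPolynomial.X (j, i) : MvPolynomial (Fin n × Fin (q + 1)) ℤ))
    rw [h, map_zero] at h2
    simp only [MvPolynomial.eval_X] at h2
    exact grid_det m κ Γ hΓ hinj s h2.symm

private theorem uw9_G_spec {F : Type*} [Field F] {n q : ℕ} (m κ : Fin (q + 1) → ℕ)
    (Γ : Fin n → Fin (q + 1) → ℕ) (S : ℕ) (y : Fin n → Fin (q + 1) → F)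
    (h : MvPolynomial.aeval (fun ρ : Fin n × Fin (q + 1) => y ρ.1 ρ.2) (uw9_G m κ Γ S) ≠ 0) :
    (Function.Injective fun j => y j 0) ∧ ∀ s ≤ S, jw m κ Γ s y ≠ 0 := by
  rw [uw9_G, map_mul] at h
  have h1 := left_ne_zero_of_mul h
  have h2 := right_ne_zero_of_mul h
  constructor
  · intro j l hjl
    by_contra hne
    rw [map_prod] at h1
    have h3 := Finset.prod_ne_zero_iff.1 h1 j (Finset.mem_univ j)
    rw [map_prod] at h3
    have h4 := Finset.prod_ne_zero_iff.1 h3 l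
      (Finset.mem_erase.2 ⟨fun h => hne h.symm, Finset.mem_univ l⟩)
    apply h4
    simp only [map_sub, MvPolynomial.aeval_X]
    exact sub_eq_zero.2 hjl
  · intro s hs h0
    rw [map_prod] at h2
    have h3 := Finset.prod_ne_zero_iff.1 h2 s (Finset.mem_range.2 (Nat.lt_succ_of_le hs))
    apply h3
    have h4 := map_jw ((MvPolynomial.aeval (fun ρ : Fin n × Fin (q + 1) => y ρ.1 ρ.2) :
        MvPolynomial (Fin n × Fin (q + 1)) ℤ →ₐ[ℤ] F) : MvPolynomial (Fin n × Fin (q + 1)) ℤ →+* F)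
      m κ Γ s (fun j i => (MvPolynomial.X (j, i) : MvPolynomial (Fin n × Fin (q + 1)) ℤ))
    simp only [RingHom.coe_coe, MvPolynomial.aeval_X] at h4
    rw [h4]
    exact h0

private theorem uw9_equiv (k : Type) [Field k] [NumberField k] {n : ℕ}
    (M : IntermediateField k (AlgebraicClosure k)) [NumberField M] (hM : finrank k M = n) :
    Nonempty ((M →ₐ[k] AlgebraicClosure k) ≃ Fin n) := by
  have : FiniteDimensional k M := by
    have : FiniteDimensional ℚ M := inferInstance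
    exact Module.Finite.of_restrictScalars_finite ℚ k M
  have h1 : Fintype.card (M →ₐ[k] AlgebraicClosure k) = finrank k M :=
    AlgHom.card k M (AlgebraicClosure k)
  exact ⟨Fintype.equivFinOfCardEq (h1.trans hM)⟩

/-- the theorem if `κ 0` is maximal -/
private theorem uw9_plain (n q : ℕ) (κ : Fin (q + 1) → ℕ) (hn : 1 ≤ n) (hnκ : n ≤ ∏ i, κ i)
    (hmax : ∀ i, κ i ≤ κ 0) (k : Type) [Field k] [NumberField k] (ε : ℝ) (hε : 0 < ε) :
    ∃ C : ℝ, ∀ B : ℝ, 1 ≤ B → Finite (ExtCls k n B) ∧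
      (extCount k n B : ℝ) ≤ C * B ^ (∑ i, ((κ i : ℝ) - 1 / 2) + ε) := by
  obtain ⟨Γ, hΓ, hinj⟩ := uw9_grid n q κ hnκ
  have hn0 : (0 : ℝ) < n := by exact_mod_cast hn
  have hκ1 : ∀ i, 1 ≤ κ i := by
    intro i
    rcases Nat.eq_zero_or_pos (κ i) with h | h
    · rw [Finset.prod_eq_zero (Finset.mem_univ i) h] at hnκ
      omega
    · exact h
  have hs0 : (0 : ℝ) < ((∑ i, κ i : ℕ) : ℝ) := by
    have : 0 < ∑ i, κ i := lt_of_lt_of_le (hκ1 0)
      (Finset.single_le_sum (f := κ) (fun _ _ => Nat.zero_le _) (Finset.mem_univ 0))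
    exact_mod_cast this
  have hc : (1 : ℝ) < 1 + ε / ((∑ i, κ i : ℕ) : ℝ) := by
    have := div_pos hε hs0
    linarith
  obtain ⟨S, hS⟩ := count_uw k hn (fun _ : Fin (q + 1) => 1) κ κ (fun _ => le_refl 1) hκ1
    (fun i => (one_mul (κ i)).le) hmax Γ hΓ (1 + ε / ((∑ i, κ i : ℕ) : ℝ)) hc (1 / (n : ℝ))
    (by positivity) (((q + 1 : ℕ) : ℝ) / 2)
  obtain ⟨C0, c1, hC0, hc1, hpts⟩ := exists_pointsG k hn (uw9_G κ κ Γ S)
    (uw9_G_ne κ κ Γ hΓ hinj S)
  obtain ⟨C, hC⟩ := hS ⟨C0, c1, hC0, hc1, fun M _ hM X hX hdX => by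
    obtain ⟨e⟩ := uw9_equiv k M hM
    obtain ⟨T, hT, hT2⟩ := hpts M hM X hX hdX e
    refine ⟨e, T, hT, fun x hx => ?_⟩
    obtain ⟨h1, h2⟩ := hT2 x hx
    obtain ⟨h3, h4⟩ := uw9_G_spec κ κ Γ S (fun j i => e.symm j (x i : M)) h2
    refine ⟨fun i => ?_, h3, h4⟩
    have h5 := h1 i
    have h6 : ((1 : ℕ) : ℝ) * (1 / (n : ℝ)) / finrank ℚ k = 1 / (n * finrank ℚ k : ℝ) := by
      rw [Nat.cast_one, one_mul, div_div]
    rw [h6]
    exact h5⟩
  refine ⟨C, fun B hB => ?_⟩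
  obtain ⟨hf, hb⟩ := hC B hB
  refine ⟨hf, ?_⟩
  have h8 : (∑ i, ((κ i : ℝ) - 1 / 2)) = ((∑ i, κ i : ℕ) : ℝ) - ((q + 1 : ℕ) : ℝ) / 2 := by
    rw [Finset.sum_sub_distrib, Finset.sum_const, Finset.card_univ, Fintype.card_fin,
      nsmul_eq_mul, Nat.cast_sum]
    ring
  have h7 : (1 + ε / ((∑ i, κ i : ℕ) : ℝ)) * ((∑ i, κ i : ℕ) : ℝ) * n * (1 / n) -
      ((q + 1 : ℕ) : ℝ) / 2 = ∑ i, ((κ i : ℝ) - 1 / 2) + ε := by
    rw [h8]
    field_simp
    ring
  rw [h7] at hb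
  exact hb

theorem plain (n q : ℕ) (κ : Fin (q + 1) → ℕ) (hn : 1 ≤ n) (hnκ : n ≤ ∏ i, κ i) (k : Type)
    [Field k] [NumberField k] (ε : ℝ) (hε : 0 < ε) : ∃ C : ℝ, ∀ B : ℝ, 1 ≤ B →
      Finite (ExtCls k n B) ∧
      (extCount k n B : ℝ) ≤ C * B ^ (∑ i, ((κ i : ℝ) - 1 / 2) + ε) := by
  obtain ⟨i0, -, hi0⟩ := Finset.exists_max_image Finset.univ κ Finset.univ_nonempty
  have hprod : ∏ i, κ (Equiv.swap 0 i0 i) = ∏ i, κ i := Equiv.prod_comp (Equiv.swap 0 i0) κ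
  have hsum : ∑ i, ((κ (Equiv.swap 0 i0 i) : ℝ) - 1 / 2) = ∑ i, ((κ i : ℝ) - 1 / 2) :=
    Equiv.sum_comp (Equiv.swap 0 i0) (fun i => (κ i : ℝ) - 1 / 2)
  have h := uw9_plain n q (fun i => κ (Equiv.swap 0 i0 i)) hn (by rw [hprod]; exact hnκ)
    (fun i => by
      simp only [Equiv.swap_apply_left]
      exact hi0 _ (Finset.mem_univ _)) k ε hε
  rw [hsum] at h
  exact h

end Pool.Agent.H8.UW
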