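import Pool.Agent.H52.UL.Defs

/-!
# Project UW (MP_a3214d): definitions

The number of all extensions of degree `n` of a number field with bounded discriminant: version
with its own modulus `p ^ m i` for every coordinate `i`. Exponents are measured by the weight
`∑ i, m i * e i`, the power of `p` dividing `(y - x) ^ e` if `y i ≡ x i` modulo `p ^ m i`.
-/

set_option autoImplicit false

open NumberField Module Polynomial Pool.Agent.H52.UB Pool.Agent.H48.UD Pool.Agent.H52.UL

namespace Pool.Agent.H8.UW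

/-- exponents of weight at most `s` -/
abbrev Ew {r : ℕ} (m : Fin r → ℕ) (s : ℕ) : Type :=
  {e : Fin r → Fin (s + 1) // ∑ i, m i * (e i : ℕ) ≤ s}

/-- the matrix of the Taylor coefficients of weight at most `s` at the `n` points `x j` of the
polynomials `phi κ (κ e + Γ l)` -/
noncomputable def jetW {R : Type*} [CommRing R] {n r : ℕ} (m κ : Fin r → ℕ)
    (Γ : Fin n → Fin r → ℕ) (s : ℕ) (x : Fin n → Fin r → R) :
    Matrix (Fin n × Ew m s) (Fin n × Ew m s) R :=
  fun ρ ρ' => tay (x ρ.1) (fun i => (ρ.2.1 i : ℕ))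
    (MvPolynomial.map (Int.castRingHom R)
      (phi κ (fun i => κ i * (ρ'.2.1 i : ℕ) + Γ ρ'.1 i)))

/-- its determinant -/
noncomputable def jw {R : Type*} [CommRing R] {n r : ℕ} (m κ : Fin r → ℕ)
    (Γ : Fin n → Fin r → ℕ) (s : ℕ) (x : Fin n → Fin r → R) : R :=
  (jetW m κ Γ s x).det

/-- the block of the jet matrix belonging to the label `t` and to exponents supported on the
coordinates `≥ r0` -/
noncomputable def bjw {R : Type*} [CommRing R] {n r : ℕ} (m κ : Fin r → ℕ)
    (Γ : Fin n → Fin r → ℕ) (r0 : ℕ) (lab : Fin n → ℕ) (t s : ℕ) (x : Fin n → Fin r → R) : R := by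
  classical
  exact ((jetW m κ Γ s x).submatrix
    (fun ρ : {ρ : Fin n × Ew m s // lab ρ.1 = t ∧ ∀ i : Fin r, (i : ℕ) < r0 → ρ.2.1 i = 0} =>
      ρ.1)
    (fun ρ : {ρ : Fin n × Ew m s // lab ρ.1 = t ∧ ∀ i : Fin r, (i : ℕ) < r0 → ρ.2.1 i = 0} =>
      ρ.1)).det

end Pool.Agent.H8.UW
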