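import Pool.Agent.H8.UW.Defs

/-!
# Project UW (MP_a3214d), row UW-3: interpolation of jets

The determinant of the jet matrix (exponents of weight at most `s`) times the jet of `g` is the jet of an integral combination of
the polynomials `phi` (adjugate matrix).
-/

set_option autoImplicit false

open NumberField Module Polynomial Pool.Agent.H52.UB Pool.Agent.H48.UD
open Pool.Agent.H52.UL (tay phi wd hl)

namespace Pool.Agent.H8.UW

private theorem uw3_sub {R : Type*} [CommRing R] {r : ℕ} (x : Fin r → R) (e : Fin r → ℕ)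
    (g g' : MvPolynomial (Fin r) R) : tay x e (g - g') = tay x e g - tay x e g' := by
  simp only [tay, map_sub, MvPolynomial.coeff_sub]

private theorem uw3_mul {R : Type*} [CommRing R] {r : ℕ} (x : Fin r → R) (e : Fin r → ℕ) (c : R)
    (g : MvPolynomial (Fin r) R) : tay x e (MvPolynomial.C c * g) = c * tay x e g := by
  simp only [tay, map_mul, MvPolynomial.aeval_C, MvPolynomial.algebraMap_eq,
    MvPolynomial.coeff_C_mul]

private theorem uw3_sum {R : Type*} [CommRing R] {r : ℕ} (x : Fin r → R) (e : Fin r → ℕ)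
    {ι : Type*} (S : Finset ι) (g : ι → MvPolynomial (Fin r) R) :
    tay x e (∑ i ∈ S, g i) = ∑ i ∈ S, tay x e (g i) := by
  simp only [tay, map_sum, MvPolynomial.coeff_sum]

private theorem uw3_deg {r : ℕ} (κ N : Fin r → ℕ) (j : Fin r) :
    (phi κ N).degreeOf j ≤ N j := by
  classical
  have h1 : ∀ i : Fin r, (∏ t ∈ Finset.range (N i), (MvPolynomial.X i -
      MvPolynomial.C ((t % κ i : ℕ) : ℤ)) : MvPolynomial (Fin r) ℤ).degreeOf j ≤
      if i = j then N i else 0 := by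
    intro i
    refine (MvPolynomial.degreeOf_prod_le _ _ _).trans ?_
    have h2 : ∀ t ∈ Finset.range (N i), (MvPolynomial.X i -
        MvPolynomial.C ((t % κ i : ℕ) : ℤ) : MvPolynomial (Fin r) ℤ).degreeOf j ≤
        if i = j then 1 else 0 := by
      intro t _
      refine (MvPolynomial.degreeOf_sub_le _ _ _).trans ?_
      rw [MvPolynomial.degreeOf_C, MvPolynomial.degreeOf_X]
      simp only [eq_comm (a := j)]
      simp
    refine (Finset.sum_le_card_nsmul _ _ _ h2).trans ?_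
    rw [Finset.card_range]
    split_ifs <;> simp
  refine (MvPolynomial.degreeOf_prod_le _ _ _).trans ?_
  refine (Finset.sum_le_sum fun i _ => h1 i).trans ?_
  rw [Finset.sum_ite_eq' Finset.univ j N]
  simp

theorem interp {R : Type*} [CommRing R] {n r : ℕ} (w κ m : Fin r → ℕ) (hm1 : ∀ i, 1 ≤ m i)
    (hm : ∀ i, w i * κ i ≤ m i) (Γ : Fin n → Fin r → ℕ) (hΓ : ∀ j i, Γ j i < κ i)
    (x : Fin n → Fin r → R) (s : ℕ) (g : MvPolynomial (Fin r) R) :
    ∃ g' : MvPolynomial (Fin r) R, (∀ b ∈ g'.support, wd w b ≤ s + wd w κ) ∧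
      ∀ (j : Fin n) (e : Fin r → ℕ), ∑ i, m i * e i ≤ s →
        tay (x j) e (MvPolynomial.C (jw m κ Γ s x) * g - g') = 0 := by
  classical
  obtain ⟨c, hc⟩ : ∃ c : Fin n × Ew m s → R,
      c = fun ρ => tay (x ρ.1) (fun i => (ρ.2.1 i : ℕ)) g := ⟨_, rfl⟩
  obtain ⟨v, hv⟩ : ∃ v : Fin n × Ew m s → R, v = (jetW m κ Γ s x).adjugate.mulVec c := ⟨_, rfl⟩
  have hMv : (jetW m κ Γ s x).mulVec v = jw m κ Γ s x • c := by
    rw [hv, Matrix.mulVec_mulVec, Matrix.mul_adjugate, Matrix.smul_mulVec, Matrix.one_mulVec, jw]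
  obtain ⟨Q, hQ⟩ : ∃ Q : Fin n × Ew m s → MvPolynomial (Fin r) R,
      Q = fun ρ' => MvPolynomial.map (Int.castRingHom R)
        (phi κ (fun i => κ i * (ρ'.2.1 i : ℕ) + Γ ρ'.1 i)) := ⟨_, rfl⟩
  refine ⟨∑ ρ', MvPolynomial.C (v ρ') * Q ρ', ?_, ?_⟩
  · intro b hb
    have h1 := MvPolynomial.support_sum hb
    rw [Finset.mem_biUnion] at h1
    obtain ⟨ρ', -, h2⟩ := h1
    have h3 : b ∈ (phi κ (fun i => κ i * (ρ'.2.1 i : ℕ) + Γ ρ'.1 i)).support := by
      rw [MvPolynomial.mem_support_iff, MvPolynomial.coeff_C_mul, hQ] at h2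
      have h4 := right_ne_zero_of_mul h2
      rw [MvPolynomial.coeff_map] at h4
      rw [MvPolynomial.mem_support_iff]
      intro h5
      rw [h5, map_zero] at h4
      exact h4 rfl
    have h6 : ∀ i, b i ≤ κ i * (ρ'.2.1 i : ℕ) + Γ ρ'.1 i := fun i =>
      (MvPolynomial.monomial_le_degreeOf i h3).trans (uw3_deg κ _ i)
    have h7 : ∀ i, w i * b i ≤ m i * (ρ'.2.1 i : ℕ) + w i * κ i := by
      intro i
      calc w i * b i ≤ w i * (κ i * (ρ'.2.1 i : ℕ) + κ i) := by
            apply Nat.mul_le_mul_left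
            have := h6 i
            have := hΓ ρ'.1 i
            omega
        _ = (w i * κ i) * (ρ'.2.1 i : ℕ) + w i * κ i := by ring
        _ ≤ m i * (ρ'.2.1 i : ℕ) + w i * κ i := by
            have := Nat.mul_le_mul_right (ρ'.2.1 i : ℕ) (hm i)
            omega
    unfold wd
    calc ∑ i, w i * b i ≤ ∑ i, (m i * (ρ'.2.1 i : ℕ) + w i * κ i) :=
          Finset.sum_le_sum fun i _ => h7 i
      _ = ∑ i, m i * (ρ'.2.1 i : ℕ) + ∑ i, w i * κ i := by
          rw [Finset.sum_add_distrib]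
      _ ≤ s + ∑ i, w i * κ i := by
          have := ρ'.2.2
          omega
  · intro j e he
    have hle : ∀ i, e i < s + 1 := fun i => by
      have h1 := Finset.single_le_sum (f := fun i => m i * e i) (fun i _ => Nat.zero_le _)
        (Finset.mem_univ i)
      have h2 := Nat.mul_le_mul_right (e i) (hm1 i)
      omega
    obtain ⟨ρ, hρ1, hρ2⟩ : ∃ ρ : Fin n × Ew m s, ρ.1 = j ∧
        (fun i => (ρ.2.1 i : ℕ)) = e :=
      ⟨(j, ⟨fun i => ⟨e i, hle i⟩, he⟩), rfl, rfl⟩
    have h1 : tay (x j) e (∑ ρ', MvPolynomial.C (v ρ') * Q ρ') =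
        (jetW m κ Γ s x).mulVec v ρ := by
      rw [uw3_sum, Matrix.mulVec, dotProduct]
      refine Finset.sum_congr rfl fun ρ' _ => ?_
      rw [uw3_mul, mul_comm, hQ, jetW, hρ1, hρ2]
    rw [uw3_sub, uw3_mul, h1, hMv, Pi.smul_apply, smul_eq_mul, hc]
    dsimp only
    rw [hρ1, hρ2, sub_self]

end Pool.Agent.H8.UW
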