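import Pool.Agent.H8.UW.Defs
import Pool.Agent.H52.UL.LocDet

/-!
# Project UW (MP_a3214d), row UW-1: jets with weights
-/

set_option autoImplicit false

open NumberField Module Polynomial Pool.Agent.H52.UB Pool.Agent.H48.UD Pool.Agent.H52.UL

namespace Pool.Agent.H8.UW

section Tay

variable {R : Type*} [CommRing R] {r : ℕ}

theorem map_jw {A B : Type*} [CommRing A] [CommRing B] (f : A →+* B) {n : ℕ} (m κ : Fin r → ℕ)
    (Γ : Fin n → Fin r → ℕ) (s : ℕ) (x : Fin n → Fin r → A) :
    f (jw m κ Γ s x) = jw m κ Γ s (fun j i => f (x j i)) := by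
  unfold jw
  rw [RingHom.map_det]
  congr 1
  ext ρ ρ'
  rw [RingHom.mapMatrix_apply, Matrix.map_apply]
  unfold jetW
  rw [map_tay, MvPolynomial.map_map]
  have h : f.comp (Int.castRingHom A) = Int.castRingHom B := RingHom.ext_int _ _
  rw [h]

/-- a permutation of the points changes at most the sign -/
theorem jw_perm {n : ℕ} (m κ : Fin r → ℕ) (Γ : Fin n → Fin r → ℕ) (s : ℕ) (x : Fin n → Fin r → R)
    (π : Equiv.Perm (Fin n)) :
    jw m κ Γ s (fun j => x (π j)) = jw m κ Γ s x ∨ jw m κ Γ s (fun j => x (π j)) = -jw m κ Γ s x := by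
  have h1 : jetW m κ Γ s (fun j => x (π j)) =
      (jetW m κ Γ s x).submatrix (Equiv.prodCongr π (Equiv.refl (Ew m s))) id := rfl
  have h2 : jw m κ Γ s (fun j => x (π j)) =
      Equiv.Perm.sign (Equiv.prodCongr π (Equiv.refl (Ew m s))) * jw m κ Γ s x := by
    unfold jw
    rw [h1, Matrix.det_permute]
  rw [h2]
  rcases Int.units_eq_one_or (Equiv.Perm.sign (Equiv.prodCongr π (Equiv.refl (Ew m s)))) with h | h
  · left
    rw [h]
    simp only [Units.val_one, Int.cast_one, one_mul]
  · right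
    rw [h]
    simp only [Units.val_neg, Units.val_one, Int.cast_neg, Int.cast_one, neg_mul, one_mul]

/-- a polynomial which vanishes at `x` to weight `s` takes values divisible by `p ^ s` at the
points congruent to `x` -/
theorem val_dvd (m : Fin r → ℕ) (p : R) (x y : Fin r → R) (u : R)
    (hu : ∀ i, p ^ m i ∣ u * (y i - x i)) (g : MvPolynomial (Fin r) R) (s : ℕ)
    (hg : ∀ e : Fin r → ℕ, ∑ i, m i * e i < s → tay x e g = 0) :
    ∃ N : ℕ, ∀ N' : ℕ, N ≤ N' → p ^ s ∣ u ^ N' * MvPolynomial.eval y g :=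
  ul4_val m p x y u hu g s hg

end Tay

end Pool.Agent.H8.UW
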